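import Mathlib

/-!
Martin's axiom for `ℵ₁` dense sets.
-/

set_option autoImplicit false

namespace Pool.Agent.W684

open Cardinal

/-- The countable chain condition: every set of pairwise incompatible conditions is countable
(a smaller condition is stronger). -/
def IsCCC (P : Type) [Preorder P] : Prop :=
  ∀ A : Set P, (∀ p ∈ A, ∀ q ∈ A, p ≠ q → ¬ ∃ r : P, r ≤ p ∧ r ≤ q) → A.Countable

/-- Martin's axiom for `ℵ₁` dense sets, `MA_{ℵ₁}`: for every nonempty preordered set `P` with the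
countable chain condition and every family of at most `ℵ₁` dense subsets of `P` there is a filter
in `P` which meets each of them. -/
def MartinAxiomAleph1 : Prop :=
  ∀ (P : Type) [Preorder P] [Nonempty P], IsCCC P →
    ∀ 𝒟 : Set (Set P), #𝒟 ≤ ℵ₁ → (∀ D ∈ 𝒟, ∀ p : P, ∃ q ∈ D, q ≤ p) →
      ∃ G : Set P, G.Nonempty ∧ (∀ p ∈ G, ∀ q : P, p ≤ q → q ∈ G) ∧
        (∀ p ∈ G, ∀ q ∈ G, ∃ r ∈ G, r ≤ p ∧ r ≤ q) ∧ ∀ D ∈ 𝒟, (G ∩ D).Nonempty

end Pool.Agent.W684
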