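import Mathlib

/-!
The space `ℕ* = βℕ \ ℕ` and the quotient map from the bounded sequences onto `C(ℕ*)`.
-/

set_option autoImplicit false

namespace Pool.Agent.W684

open Filter Topology Set
open scoped BoundedContinuousFunction

/-- The remainder `ℕ* = βℕ \ ℕ` of the Stone–Čech compactification of the discrete space `ℕ`. -/
abbrev NStar : Type :=
  {x : StoneCech ℕ // x ∉ Set.range (stoneCechUnit : ℕ → StoneCech ℕ)}

namespace NS

/-- a bounded sequence, as a map into a compact interval -/
def toBall (g : ℕ →ᵇ ℝ) (n : ℕ) : Metric.closedBall (0 : ℝ) ‖g‖ :=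
  ⟨g n, by rw [mem_closedBall_zero_iff]; exact g.norm_coe_le_norm n⟩

theorem continuous_toBall (g : ℕ →ᵇ ℝ) : Continuous (toBall g) :=
  continuous_of_discreteTopology

/-- the extension of a bounded sequence to `βℕ` -/
noncomputable def ext (g : ℕ →ᵇ ℝ) : StoneCech ℕ → ℝ := fun x =>
  ((stoneCechExtend (continuous_toBall g) x : Metric.closedBall (0 : ℝ) ‖g‖) : ℝ)

theorem continuous_ext (g : ℕ →ᵇ ℝ) : Continuous (ext g) :=
  continuous_subtype_val.comp (continuous_stoneCechExtend (continuous_toBall g))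

@[simp] theorem ext_unit (g : ℕ →ᵇ ℝ) (n : ℕ) : ext g (stoneCechUnit n) = g n := by
  simp [ext, toBall]

theorem ext_unique (g : ℕ →ᵇ ℝ) {h : StoneCech ℕ → ℝ} (hc : Continuous h)
    (h1 : ∀ n, h (stoneCechUnit n) = g n) : h = ext g :=
  stoneCech_hom_ext hc (continuous_ext g) (by ext n; simp [h1])

theorem norm_ext_le (g : ℕ →ᵇ ℝ) (x : StoneCech ℕ) : ‖ext g x‖ ≤ ‖g‖ := by
  have := (stoneCechExtend (continuous_toBall g) x).2
  rwa [mem_closedBall_zero_iff] at this

theorem ext_add (g h : ℕ →ᵇ ℝ) : ext (g + h) = ext g + ext h :=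
  (ext_unique (g + h) ((continuous_ext g).add (continuous_ext h)) (by simp)).symm

theorem ext_smul (c : ℝ) (g : ℕ →ᵇ ℝ) : ext (c • g) = c • ext g :=
  (ext_unique (c • g) ((continuous_ext g).const_smul c) (by simp)).symm

/-- the quotient map, restricting the extension to `ℕ*` -/
noncomputable def quo : (ℕ →ᵇ ℝ) →ₗ[ℝ] (NStar →ᵇ ℝ) where
  toFun g := BoundedContinuousFunction.ofNormedAddCommGroup (fun x : NStar => ext g x.1)
    ((continuous_ext g).comp continuous_subtype_val) ‖g‖ fun x => norm_ext_le g x.1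
  map_add' g h := by
    ext x
    simp [ext_add]
  map_smul' c g := by
    ext x
    simp [ext_smul]

@[simp] theorem quo_apply (g : ℕ →ᵇ ℝ) (x : NStar) : quo g x = ext g x.1 := rfl

/-- a point of `ℕ*` lies in the closure of every tail -/
theorem mem_closure_tail (x : NStar) (m : ℕ) :
    x.1 ∈ closure ((stoneCechUnit : ℕ → StoneCech ℕ) '' {k | m ≤ k}) := by
  obtain ⟨x, hx⟩ := x
  simp only
  have h1 : x ∈ closure (range (stoneCechUnit : ℕ → StoneCech ℕ)) :=
    denseRange_stoneCechUnit x
  have h2 : range (stoneCechUnit : ℕ → StoneCech ℕ) =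
      (stoneCechUnit '' {k | k < m}) ∪ (stoneCechUnit '' {k | m ≤ k}) := by
    rw [← image_union, ← image_univ]
    congr 1
    ext k
    simp [lt_or_ge]
  rw [h2, closure_union] at h1
  rcases h1 with h | h
  · have h3 : (stoneCechUnit '' {k : ℕ | k < m} : Set (StoneCech ℕ)).Finite :=
      (Set.finite_lt_nat m).image _
    rw [h3.isClosed.closure_eq] at h
    obtain ⟨k, -, hk⟩ := h
    exact absurd ⟨k, hk⟩ hx
  · exact h

theorem norm_quo_le {g : ℕ →ᵇ ℝ} {M : ℝ} (hM : 0 ≤ M) (h : ∀ᶠ k in atTop, |g k| ≤ M) :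
    ‖quo g‖ ≤ M := by
  rw [BoundedContinuousFunction.norm_le hM]
  intro x
  obtain ⟨m, hm⟩ := eventually_atTop.1 h
  have h1 : IsClosed {y : StoneCech ℕ | ‖ext g y‖ ≤ M} :=
    isClosed_le (continuous_ext g).norm continuous_const
  have h2 : (stoneCechUnit : ℕ → StoneCech ℕ) '' {k | m ≤ k} ⊆ {y | ‖ext g y‖ ≤ M} := by
    rintro _ ⟨k, hk, rfl⟩
    simpa using hm k hk
  exact (closure_minimal h2 h1) (mem_closure_tail x m)

/-- the characteristic function of a point -/
noncomputable def delta (n : ℕ) : ℕ →ᵇ ℝ :=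
  BoundedContinuousFunction.ofNormedAddCommGroup (fun k => if k = n then (1 : ℝ) else 0)
    continuous_of_discreteTopology 1 fun k => by split_ifs <;> simp

theorem not_mem_closure (n : ℕ) {S : Set ℕ} (h : n ∉ S) :
    (stoneCechUnit n : StoneCech ℕ) ∉ closure ((stoneCechUnit : ℕ → StoneCech ℕ) '' S) := by
  intro hc
  have h1 : IsClosed {y : StoneCech ℕ | ext (delta n) y = 0} :=
    isClosed_eq (continuous_ext _) continuous_const
  have h2 : (stoneCechUnit : ℕ → StoneCech ℕ) '' S ⊆ {y | ext (delta n) y = 0} := by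
    rintro _ ⟨k, hk, rfl⟩
    have : k ≠ n := fun h' => h (h' ▸ hk)
    simp [delta, this]
  have h3 := (closure_minimal h2 h1) hc
  simp [delta] at h3

theorem eventually_of_norm_quo_lt {g : ℕ →ᵇ ℝ} {M : ℝ} (h : ‖quo g‖ < M) :
    ∀ᶠ k in atTop, |g k| < M := by
  by_contra hcon
  rw [eventually_atTop] at hcon
  push Not at hcon
  let K : ℕ → Set (StoneCech ℕ) := fun m =>
    closure (stoneCechUnit '' {k | m ≤ k ∧ M ≤ |g k|})
  have hK : (⋂ m, K m).Nonempty := by
    apply IsCompact.nonempty_iInter_of_sequence_nonempty_isCompact_isClosed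
    · intro m
      apply closure_mono
      apply image_mono
      intro k hk
      exact ⟨(Nat.le_succ m).trans hk.1, hk.2⟩
    · intro m
      obtain ⟨k, hk, hk'⟩ := hcon m
      exact ⟨_, subset_closure ⟨k, ⟨hk, hk'⟩, rfl⟩⟩
    · exact isClosed_closure.isCompact
    · intro m
      exact isClosed_closure
  obtain ⟨x, hx⟩ := hK
  rw [mem_iInter] at hx
  have hx1 : x ∉ range (stoneCechUnit : ℕ → StoneCech ℕ) := by
    rintro ⟨n, rfl⟩
    refine not_mem_closure n (S := {k | n + 1 ≤ k ∧ M ≤ |g k|}) ?_ (hx (n + 1))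
    simp
  have h1 : IsClosed {y : StoneCech ℕ | M ≤ ‖ext g y‖} :=
    isClosed_le continuous_const (continuous_ext g).norm
  have h2 : (stoneCechUnit : ℕ → StoneCech ℕ) '' {k | 0 ≤ k ∧ M ≤ |g k|} ⊆
      {y | M ≤ ‖ext g y‖} := by
    rintro _ ⟨k, hk, rfl⟩
    simpa using hk.2
  have h3 : M ≤ ‖ext g x‖ := (closure_minimal h2 h1) (hx 0)
  have h4 : ‖quo g ⟨x, hx1⟩‖ ≤ ‖quo g‖ := (quo g).norm_coe_le_norm _
  rw [quo_apply] at h4
  linarith

theorem isOpen_range : IsOpen (range (stoneCechUnit : ℕ → StoneCech ℕ)) := by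
  have : range (stoneCechUnit : ℕ → StoneCech ℕ) =
      ⋃ n, {y : StoneCech ℕ | (1 / 2 : ℝ) < ext (delta n) y} := by
    ext x
    simp only [mem_range, mem_iUnion]
    constructor
    · rintro ⟨n, rfl⟩
      refine ⟨n, ?_⟩
      simp [delta]
      norm_num
    · rintro ⟨n, hn⟩
      refine ⟨n, ?_⟩
      by_contra hne
      have h1 : x ∈ closure (range (stoneCechUnit : ℕ → StoneCech ℕ)) :=
        denseRange_stoneCechUnit x
      have h2 : range (stoneCechUnit : ℕ → StoneCech ℕ) =
          {stoneCechUnit n} ∪ (stoneCechUnit '' {k | k ≠ n}) := by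
        ext y
        simp only [mem_range, mem_union, mem_singleton_iff, mem_image]
        constructor
        · rintro ⟨k, rfl⟩
          by_cases hk : k = n
          · left; rw [hk]
          · right; exact ⟨k, hk, rfl⟩
        · rintro (h | ⟨k, -, h⟩)
          · exact ⟨n, h.symm⟩
          · exact ⟨k, h⟩
      rw [h2, closure_union, closure_singleton] at h1
      rcases h1 with h | h
      · exact hne (mem_singleton_iff.1 h).symm
      · have h3 : IsClosed {y : StoneCech ℕ | ext (delta n) y ≤ 0} :=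
          isClosed_le (continuous_ext _) continuous_const
        have h4 : (stoneCechUnit : ℕ → StoneCech ℕ) '' {k | k ≠ n} ⊆
            {y | ext (delta n) y ≤ 0} := by
          rintro _ ⟨k, hk, rfl⟩
          have : k ≠ n := hk
          simp [delta, this]
        have h5 : ext (delta n) x ≤ 0 := (closure_minimal h4 h3) h
        have h6 : (1 / 2 : ℝ) < ext (delta n) x := hn
        linarith
  rw [this]
  exact isOpen_iUnion fun n => isOpen_lt continuous_const (continuous_ext _)

instance : CompactSpace NStar := by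
  have : IsClosed {x : StoneCech ℕ | x ∉ range (stoneCechUnit : ℕ → StoneCech ℕ)} :=
    isOpen_range.isClosed_compl
  exact isCompact_iff_compactSpace.1 this.isCompact

theorem quo_surjective : Function.Surjective quo := by
  intro f
  have hcl : IsClosed {x : StoneCech ℕ | x ∉ range (stoneCechUnit : ℕ → StoneCech ℕ)} :=
    isOpen_range.isClosed_compl
  obtain ⟨G, -, hG⟩ := BoundedContinuousFunction.exists_extension_norm_eq_of_isClosedEmbedding f
    (e := (Subtype.val : NStar → StoneCech ℕ)) hcl.isClosedEmbedding_subtypeVal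
  refine ⟨BoundedContinuousFunction.ofNormedAddCommGroup (fun n => G (stoneCechUnit n))
    continuous_of_discreteTopology ‖G‖ fun n => G.norm_coe_le_norm _, ?_⟩
  ext x
  rw [quo_apply, ← ext_unique _ G.continuous (fun n => rfl)]
  exact congrFun hG x

end NS

end Pool.Agent.W684
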