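import Mathlib
import Pool.Agent.H916R3.CH.Main
import Pool.Agent.W684.NStar

set_option autoImplicit false
set_option maxSynthPendingDepth 6

/-!
Under CH there is an isometric embedding of `C(ℕ*)` into itself which is not left invertible on the
`A`-supported functions, for any infinite `A`.
-/

namespace Pool.Agent.W684.Canon

open Filter Topology Set
open Pool.Agent.H916R3.CH
open scoped BoundedContinuousFunction

/-- a member of `ℓ_∞` as a bounded continuous function -/
noncomputable def toB : Linf →ₗ[ℝ] (ℕ →ᵇ ℝ) where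
  toFun f := BoundedContinuousFunction.ofNormedAddCommGroup (fun n => f n)
    continuous_of_discreteTopology ‖f‖ fun n => abs_apply_le f n
  map_add' f g := by
    ext n
    rfl
  map_smul' c f := by
    ext n
    rfl

@[simp] theorem toB_apply (f : Linf) (n : ℕ) : toB f n = f n := rfl

theorem toB_surjective : Function.Surjective toB := by
  intro g
  refine ⟨toL (fun n => g n) ‖g‖ fun n => g.norm_coe_le_norm n, ?_⟩
  ext n
  rfl

noncomputable def phiL : Linf →ₗ[ℝ] (NStar →ᵇ ℝ) := NS.quo.comp toB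

theorem norm_phiL (f : Linf) : ‖phiL f‖ = ‖mk f‖ := by
  apply le_antisymm
  · refine le_of_forall_pos_le_add fun ε hε => ?_
    obtain ⟨g, hg1, hg2⟩ := Submodule.Quotient.norm_mk_lt (mk f) (S := c0sub) (ε := ε / 2)
      (by positivity)
    have h1 : mk f = mk g := hg1.symm
    rw [mk_eq_mk, Metric.tendsto_atTop] at h1
    obtain ⟨N, hN⟩ := h1 (ε / 2) (by positivity)
    refine NS.norm_quo_le (by positivity) ?_
    filter_upwards [eventually_ge_atTop N] with k hk
    have h2 := hN k hk
    rw [Real.dist_eq, sub_zero] at h2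
    have h3 := abs_apply_le g k
    have h4 := abs_sub_abs_le_abs_sub (f k) (g k)
    rw [toB_apply]
    linarith
  · refine norm_mk_le (norm_nonneg _) fun ε hε => ?_
    have h1 : ‖NS.quo (toB f)‖ < ‖phiL f‖ + ε := by
      show ‖phiL f‖ < ‖phiL f‖ + ε
      linarith
    filter_upwards [NS.eventually_of_norm_quo_lt h1] with k hk
    exact hk.le

theorem phiL_surjective : Function.Surjective phiL :=
  NS.quo_surjective.comp toB_surjective

theorem phiL_eq_of_mk {f g : Linf} (h : mk f = mk g) : phiL f = phiL g := by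
  rw [← sub_eq_zero, ← norm_eq_zero, ← map_sub, norm_phiL, map_sub, h, sub_self, norm_zero]

/-- the isometry of `ℓ_∞ / c₀` onto `C(ℕ*)` -/
noncomputable def phi0 : Q →ₗ[ℝ] (NStar →ᵇ ℝ) :=
  c0sub.liftQ phiL (by
    intro f hf
    rw [LinearMap.mem_ker]
    have h1 : mk f = mk 0 := by
      rw [mk_eq_mk]
      have h2 := mem_c0sub.1 hf
      simpa using h2
    rw [phiL_eq_of_mk h1, map_zero])

@[simp] theorem phi0_mk (f : Linf) : phi0 (mk f) = phiL f := rfl

noncomputable def phi1 : Q →ₗᵢ[ℝ] (NStar →ᵇ ℝ) where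
  toLinearMap := phi0
  norm_map' q := by
    obtain ⟨f, rfl⟩ := exists_rep q
    exact norm_phiL f

theorem phi1_surjective : Function.Surjective phi1 := by
  intro g
  obtain ⟨f, rfl⟩ := phiL_surjective g
  exact ⟨mk f, rfl⟩

noncomputable def phi : Q ≃ₗᵢ[ℝ] (NStar →ᵇ ℝ) :=
  LinearIsometryEquiv.ofSurjective phi1 phi1_surjective

@[simp] theorem phi_mk (f : Linf) : phi (mk f) = NS.quo (toB f) := rfl

section reindex

variable (A : Set ℕ) [Infinite A]

open Classical in
/-- the extension by zero of a sequence indexed by the elements of `A` -/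
noncomputable def extA : Linf →ₗ[ℝ] Linf where
  toFun f := toL (fun n => if h : n ∈ A then f ((Nat.Subtype.orderIsoOfNat A).symm ⟨n, h⟩) else 0)
    ‖f‖ (fun n => by
      by_cases h : n ∈ A
      · rw [dif_pos h]
        exact abs_apply_le f _
      · rw [dif_neg h, abs_zero]
        exact norm_nonneg f)
  map_add' f g := by
    apply lp.ext
    funext n
    show (if h : n ∈ A then (f + g) ((Nat.Subtype.orderIsoOfNat A).symm ⟨n, h⟩) else 0) =
      (if h : n ∈ A then f ((Nat.Subtype.orderIsoOfNat A).symm ⟨n, h⟩) else 0) +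
      (if h : n ∈ A then g ((Nat.Subtype.orderIsoOfNat A).symm ⟨n, h⟩) else 0)
    by_cases h : n ∈ A
    · rw [dif_pos h, dif_pos h, dif_pos h]
      rfl
    · rw [dif_neg h, dif_neg h, dif_neg h, add_zero]
  map_smul' c f := by
    apply lp.ext
    funext n
    show (if h : n ∈ A then (c • f) ((Nat.Subtype.orderIsoOfNat A).symm ⟨n, h⟩) else 0) =
      c * (if h : n ∈ A then f ((Nat.Subtype.orderIsoOfNat A).symm ⟨n, h⟩) else 0)
    by_cases h : n ∈ A
    · rw [dif_pos h, dif_pos h]
      rfl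
    · rw [dif_neg h, dif_neg h, mul_zero]

open Classical in
theorem extA_apply (f : Linf) (n : ℕ) :
    extA A f n = if h : n ∈ A then f ((Nat.Subtype.orderIsoOfNat A).symm ⟨n, h⟩) else 0 := rfl

theorem extA_of_not_mem (f : Linf) {n : ℕ} (h : n ∉ A) : extA A f n = 0 := by
  classical
  rw [extA_apply, dif_neg h]

theorem extA_iso (f : Linf) (k : ℕ) :
    extA A f ((Nat.Subtype.orderIsoOfNat A k : A) : ℕ) = f k := by
  classical
  rw [extA_apply, dif_pos (Nat.Subtype.orderIsoOfNat A k).2]
  exact congrArg (fun i => f i) ((Nat.Subtype.orderIsoOfNat A).symm_apply_apply k)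

theorem tendsto_iso :
    Tendsto (fun k => ((Nat.Subtype.orderIsoOfNat A k : A) : ℕ)) atTop atTop := by
  apply StrictMono.tendsto_atTop
  intro a b hab
  exact_mod_cast (Nat.Subtype.orderIsoOfNat A).strictMono hab

theorem norm_mk_extA (f : Linf) : ‖mk (extA A f)‖ = ‖mk f‖ := by
  have key : ∀ M : ℝ, (∀ᶠ i in atTop, |f i| ≤ M) → 0 ≤ M → ∀ᶠ i in atTop, |extA A f i| ≤ M := by
    intro M hM hM0
    obtain ⟨K, hK⟩ := eventually_atTop.1 hM
    filter_upwards [eventually_ge_atTop ((Nat.Subtype.orderIsoOfNat A K : A) : ℕ)] with n hn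
    by_cases h : n ∈ A
    · have h1 : extA A f n = f ((Nat.Subtype.orderIsoOfNat A).symm ⟨n, h⟩) := by
        classical
        rw [extA_apply, dif_pos h]
      rw [h1]
      apply hK
      rw [OrderIso.le_symm_apply]
      exact_mod_cast hn
    · rw [extA_of_not_mem A f h, abs_zero]
      exact hM0
  apply le_antisymm
  · refine norm_mk_le (norm_nonneg _) fun ε hε => ?_
    apply key _ _ (by positivity)
    have h1 : ‖NS.quo (toB f)‖ < ‖mk f‖ + ε := by
      have := norm_phiL f
      change ‖NS.quo (toB f)‖ = _ at this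
      rw [this]
      linarith
    filter_upwards [NS.eventually_of_norm_quo_lt h1] with k hk
    exact hk.le
  · refine norm_mk_le (norm_nonneg _) fun ε hε => ?_
    have h1 : ‖NS.quo (toB (extA A f))‖ < ‖mk (extA A f)‖ + ε := by
      have := norm_phiL (extA A f)
      change ‖NS.quo (toB (extA A f))‖ = _ at this
      rw [this]
      linarith
    have h2 := NS.eventually_of_norm_quo_lt h1
    filter_upwards [(tendsto_iso A).eventually h2] with k hk
    rw [toB_apply, extA_iso] at hk
    exact hk.le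

/-- the induced isometric embedding of `ℓ_∞ / c₀` -/
noncomputable def embA : Q →ₗᵢ[ℝ] Q where
  toLinearMap := c0sub.liftQ (mk.comp (extA A)) (by
    intro f hf
    rw [LinearMap.mem_ker]
    show mk (extA A f) = 0
    have h1 : mk f = 0 := by
      have : mk f = mk 0 := by
        rw [mk_eq_mk]
        have h2 := mem_c0sub.1 hf
        simpa using h2
      rw [this, map_zero]
    rw [← norm_eq_zero, norm_mk_extA, h1, norm_zero])
  norm_map' q := by
    obtain ⟨f, rfl⟩ := exists_rep q
    exact norm_mk_extA A f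

@[simp] theorem embA_mk (f : Linf) : embA A (mk f) = mk (extA A f) := rfl

end reindex

/-- the characteristic function of `A`, as a bounded sequence -/
noncomputable def chi (A : Set ℕ) : ℕ →ᵇ ℝ :=
  BoundedContinuousFunction.ofNormedAddCommGroup (Set.indicator A fun _ => (1 : ℝ))
    continuous_of_discreteTopology 1 fun k => by
      by_cases h : k ∈ A
      · simp [h]
      · simp [h]

theorem chi_apply (A : Set ℕ) (n : ℕ) : chi A n = Set.indicator A (fun _ => (1 : ℝ)) n := rfl

theorem ext_mul (g h : ℕ →ᵇ ℝ) : NS.ext (g * h) = NS.ext g * NS.ext h :=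
  (NS.ext_unique (g * h) ((NS.continuous_ext g).mul (NS.continuous_ext h)) (by simp)).symm

/-- Multiplication by the characteristic function of `A*` maps `C(ℕ*)` to the range of `embA`. -/
theorem mul_mem (A : Set ℕ) [Infinite A] (g : NStar →ᵇ ℝ) :
    ∃ q : Q, NS.quo (chi A) * g = phi (embA A q) := by
  obtain ⟨f, rfl⟩ := NS.quo_surjective g
  let f' : Linf := toL (fun k => f ((Nat.Subtype.orderIsoOfNat A k : A) : ℕ)) ‖f‖
    fun k => f.norm_coe_le_norm _
  refine ⟨mk f', ?_⟩
  rw [embA_mk, phi_mk]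
  have h1 : toB (extA A f') = chi A * f := by
    ext n
    rw [toB_apply]
    by_cases h : n ∈ A
    · obtain ⟨k, hk⟩ := (Nat.Subtype.orderIsoOfNat A).surjective ⟨n, h⟩
      have hk' : n = ((Nat.Subtype.orderIsoOfNat A k : A) : ℕ) := by rw [hk]
      rw [hk', extA_iso]
      show f _ = chi A _ * f _
      rw [chi_apply, Set.indicator_of_mem (by rw [← hk']; exact h), one_mul]
    · rw [extA_of_not_mem A f' h]
      show 0 = chi A _ * f _
      rw [chi_apply, Set.indicator_of_notMem h, zero_mul]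
  rw [h1]
  ext x
  show NS.ext (chi A) x.1 * NS.ext f x.1 = NS.ext (chi A * f) x.1
  rw [ext_mul]
  rfl

/-- `G` restricted to `ℕ*` -/
noncomputable def resG (G : C(StoneCech ℕ, ℝ)) : NStar →ᵇ ℝ :=
  (BoundedContinuousFunction.mkOfCompact G).compContinuous
    ⟨Subtype.val, continuous_subtype_val⟩

theorem embA_supported (A : Set ℕ) [Infinite A] (q : Q) :
    ∃ G : C(StoneCech ℕ, ℝ), (∀ n, n ∉ A → G (stoneCechUnit n) = 0) ∧
      phi (embA A q) = resG G := by
  obtain ⟨f, rfl⟩ := exists_rep q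
  refine ⟨⟨NS.ext (toB (extA A f)), NS.continuous_ext _⟩, ?_, ?_⟩
  · intro n hn
    show NS.ext _ _ = 0
    rw [NS.ext_unit, toB_apply, extA_of_not_mem A f hn]
  · rw [embA_mk, phi_mk]
    ext x
    rfl

theorem chi_mul_supported (A : Set ℕ) (G : C(StoneCech ℕ, ℝ))
    (hG : ∀ n, n ∉ A → G (stoneCechUnit n) = 0) : NS.quo (chi A) * resG G = resG G := by
  have h : ∀ x : StoneCech ℕ, NS.ext (chi A) x * G x = G x := by
    intro x
    have h1 : IsClosed {y : StoneCech ℕ | NS.ext (chi A) y * G y = G y} :=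
      isClosed_eq ((NS.continuous_ext _).mul G.continuous) G.continuous
    have h2 : range (stoneCechUnit : ℕ → StoneCech ℕ) ⊆
        {y : StoneCech ℕ | NS.ext (chi A) y * G y = G y} := by
      rintro _ ⟨n, rfl⟩
      show NS.ext (chi A) _ * G _ = G _
      rw [NS.ext_unit, chi_apply]
      by_cases hn : n ∈ A
      · rw [Set.indicator_of_mem hn, one_mul]
      · rw [hG n hn, mul_zero]
    exact (closure_minimal h2 h1) (denseRange_stoneCechUnit x)
  ext x
  exact h x.1

/-- Under CH there is an isometric embedding `T` of `C(ℕ*)` into itself such that for no infinite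
`A` there is a bounded linear `U` with `U (T f) = f` for all `A`-supported `f`. -/
theorem main (hCH : Cardinal.aleph.{0} 1 = Cardinal.continuum) :
    ∃ T : (NStar →ᵇ ℝ) →L[ℝ] (NStar →ᵇ ℝ), (∀ f, ‖T f‖ = ‖f‖) ∧
      ∀ A : Set ℕ, A.Infinite → ∀ U : (NStar →ᵇ ℝ) →L[ℝ] (NStar →ᵇ ℝ),
        ¬ ∀ G : C(StoneCech ℕ, ℝ), (∀ n, n ∉ A → G (stoneCechUnit n) = 0) →
          U (T (resG G)) = resG G := by
  obtain ⟨j⟩ := exists_isometry (W := Bone Q) (by rw [hCH]; exact mk_Bone_le)
  let g : Q →ₗᵢ[ℝ] Q := j.comp J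
  refine ⟨((phi.toLinearIsometry.comp g).comp phi.symm.toLinearIsometry).toContinuousLinearMap,
    fun f => LinearIsometry.norm_map _ f, ?_⟩
  intro A hA U hU
  have : Infinite A := hA.to_subtype
  let T : (NStar →ᵇ ℝ) → (NStar →ᵇ ℝ) := fun f => phi (g (phi.symm f))
  have hU' : ∀ G : C(StoneCech ℕ, ℝ), (∀ n, n ∉ A → G (stoneCechUnit n) = 0) →
      U (T (resG G)) = resG G := hU
  let E : Q →ₗᵢ[ℝ] Q := g.comp (embA A)
  let Z : Submodule ℝ Q := LinearMap.range E.toLinearMap
  let e : Q ≃L[ℝ] Z := E.equivRange.toContinuousLinearEquiv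
  have he : ∀ q, ((e q : Z) : Q) = E q := fun q => rfl
  -- the multiplication operator
  let Mul : (NStar →ᵇ ℝ) →L[ℝ] (NStar →ᵇ ℝ) :=
    ContinuousLinearMap.mul ℝ (NStar →ᵇ ℝ) (NS.quo (chi A))
  let P0 : Q →L[ℝ] Q := (g.toContinuousLinearMap).comp
    ((phi.symm.toContinuousLinearEquiv : (NStar →ᵇ ℝ) →L[ℝ] Q).comp
      (Mul.comp (U.comp (phi.toContinuousLinearEquiv : Q →L[ℝ] (NStar →ᵇ ℝ)))))
  have hP0 : ∀ q, P0 q = g (phi.symm (NS.quo (chi A) * U (phi q))) := fun q => rfl
  have hmem : ∀ q, P0 q ∈ Z := by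
    intro q
    obtain ⟨q', hq'⟩ := mul_mem A (U (phi q))
    rw [hP0, hq', phi.symm_apply_apply]
    exact ⟨q', rfl⟩
  let P : Q →L[ℝ] Z := P0.codRestrict Z hmem
  have hcomp : Z.ClosedComplemented := by
    refine ⟨P, ?_⟩
    rintro ⟨z, q, rfl⟩
    apply Subtype.ext
    show P0 (E q) = E q
    rw [hP0]
    obtain ⟨G, hG, hG'⟩ := embA_supported A q
    have h1 : phi (E q) = T (resG G) := by
      show phi (g (embA A q)) = phi (g (phi.symm (resG G)))
      rw [← hG', phi.symm_apply_apply]
    rw [h1, hU' G hG, chi_mul_supported A G hG, ← hG', phi.symm_apply_apply]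
    rfl
  refine no_complemented_subcopy j Z ?_ e hcomp
  rintro _ ⟨q, rfl⟩
  exact ⟨embA A q, rfl⟩

end Pool.Agent.W684.Canon
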