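import Pool.Agent.W684.Canon

set_option autoImplicit false
set_option maxSynthPendingDepth 6

namespace Pool.Agent.W684.Canon

open Filter Topology Set
open scoped BoundedContinuousFunction

theorem ext_chi_eq_one {A : Set ℕ} {x : StoneCech ℕ}
    (h : x ∈ closure ((stoneCechUnit : ℕ → StoneCech ℕ) '' A)) : NS.ext (chi A) x = 1 := by
  have h1 : IsClosed {y : StoneCech ℕ | NS.ext (chi A) y = 1} :=
    isClosed_eq (NS.continuous_ext _) continuous_const
  have h2 : (stoneCechUnit : ℕ → StoneCech ℕ) '' A ⊆ {y | NS.ext (chi A) y = 1} := by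
    rintro _ ⟨k, hk, rfl⟩
    show NS.ext (chi A) _ = 1
    rw [NS.ext_unit, chi_apply, Set.indicator_of_mem hk]
  exact (closure_minimal h2 h1) h

theorem ext_chi_eq_zero {A : Set ℕ} {x : StoneCech ℕ}
    (h : x ∉ closure ((stoneCechUnit : ℕ → StoneCech ℕ) '' A)) : NS.ext (chi A) x = 0 := by
  have h0 : x ∈ closure ((stoneCechUnit : ℕ → StoneCech ℕ) '' Aᶜ) := by
    have h1 : x ∈ closure (range (stoneCechUnit : ℕ → StoneCech ℕ)) :=
      denseRange_stoneCechUnit x
    rw [← image_univ, ← union_compl_self A, image_union, closure_union] at h1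
    exact h1.resolve_left h
  have h1 : IsClosed {y : StoneCech ℕ | NS.ext (chi A) y = 0} :=
    isClosed_eq (NS.continuous_ext _) continuous_const
  have h2 : (stoneCechUnit : ℕ → StoneCech ℕ) '' Aᶜ ⊆ {y | NS.ext (chi A) y = 0} := by
    rintro _ ⟨k, hk, rfl⟩
    show NS.ext (chi A) _ = 0
    rw [NS.ext_unit, chi_apply, Set.indicator_of_notMem hk]
  exact (closure_minimal h2 h1) h0

/-- the set `A*` in `ℕ*` -/
def star (A : Set ℕ) : Set NStar :=
  {x | x.1 ∈ closure ((stoneCechUnit : ℕ → StoneCech ℕ) '' A)}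

theorem isOpen_star (A : Set ℕ) : IsOpen (star A) := by
  have : star A = {x : NStar | (1 / 2 : ℝ) < NS.ext (chi A) x.1} := by
    ext x
    constructor
    · intro h
      show (1 / 2 : ℝ) < NS.ext (chi A) x.1
      rw [ext_chi_eq_one h]
      norm_num
    · intro h
      by_contra hx
      have h' : (1 / 2 : ℝ) < NS.ext (chi A) x.1 := h
      rw [ext_chi_eq_zero hx] at h'
      norm_num at h'
  rw [this]
  exact isOpen_lt continuous_const ((NS.continuous_ext _).comp continuous_subtype_val)

theorem isClosed_star (A : Set ℕ) : IsClosed (star A) :=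
  isClosed_closure.preimage continuous_subtype_val

open Classical in
/-- the left inverse given by a quadruple `(A, F, r, ψ)` -/
noncomputable def leftInv (A : Set ℕ) (F : Set NStar) (r : ℝ) (ψ : F ≃ₜ star A)
    (g : NStar →ᵇ ℝ) : NStar →ᵇ ℝ :=
  BoundedContinuousFunction.ofNormedAddCommGroup
    (fun x => if h : x ∈ star A then r⁻¹ * g (ψ.symm ⟨x, h⟩ : F).1 else 0)
    (by
      have h1 : ContinuousOn (fun x => if h : x ∈ star A then r⁻¹ * g (ψ.symm ⟨x, h⟩ : F).1 else 0)
          (star A) := by
        rw [continuousOn_iff_continuous_domRestrict]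
        have : (star A).domRestrict
            (fun x => if h : x ∈ star A then r⁻¹ * g (ψ.symm ⟨x, h⟩ : F).1 else 0) =
            fun x : star A => r⁻¹ * g (ψ.symm x : F).1 := by
          funext x
          exact dif_pos x.2
        rw [this]
        exact continuous_const.mul
          (g.continuous.comp (continuous_subtype_val.comp ψ.symm.continuous))
      have h2 : ContinuousOn (fun x => if h : x ∈ star A then r⁻¹ * g (ψ.symm ⟨x, h⟩ : F).1 else 0)
          (star A)ᶜ := by
        rw [continuousOn_iff_continuous_domRestrict]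
        have : (star A)ᶜ.domRestrict
            (fun x => if h : x ∈ star A then r⁻¹ * g (ψ.symm ⟨x, h⟩ : F).1 else 0) =
            fun _ => (0 : ℝ) := by
          funext x
          exact dif_neg x.2
        rw [this]
        exact continuous_const
      have h3 := h1.union_of_isOpen h2 (isOpen_star A) (isClosed_star A).isOpen_compl
      rw [union_compl_self] at h3
      exact continuousOn_univ.1 h3)
    (|r⁻¹| * ‖g‖) (by
      intro x
      by_cases h : x ∈ star A
      · rw [dif_pos h, Real.norm_eq_abs, abs_mul]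
        exact mul_le_mul_of_nonneg_left (g.norm_coe_le_norm _) (abs_nonneg _)
      · rw [dif_neg h, norm_zero]
        positivity)

theorem leftInv_of_mem {A : Set ℕ} {F : Set NStar} {r : ℝ} {ψ : F ≃ₜ star A}
    (g : NStar →ᵇ ℝ) {x : NStar} (h : x ∈ star A) :
    leftInv A F r ψ g x = r⁻¹ * g (ψ.symm ⟨x, h⟩ : F).1 := dif_pos h

theorem leftInv_of_not_mem {A : Set ℕ} {F : Set NStar} {r : ℝ} {ψ : F ≃ₜ star A}
    (g : NStar →ᵇ ℝ) {x : NStar} (h : x ∉ star A) :
    leftInv A F r ψ g x = 0 := dif_neg h

noncomputable def leftInvL (A : Set ℕ) (F : Set NStar) (r : ℝ) (ψ : F ≃ₜ star A) :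
    (NStar →ᵇ ℝ) →L[ℝ] (NStar →ᵇ ℝ) :=
  LinearMap.mkContinuous
    { toFun := leftInv A F r ψ
      map_add' := fun f g => by
        ext x
        show leftInv A F r ψ (f + g) x = leftInv A F r ψ f x + leftInv A F r ψ g x
        by_cases h : x ∈ star A
        · rw [leftInv_of_mem _ h, leftInv_of_mem _ h, leftInv_of_mem _ h]
          show r⁻¹ * (f _ + g _) = _
          ring
        · rw [leftInv_of_not_mem _ h, leftInv_of_not_mem _ h, leftInv_of_not_mem _ h, add_zero]
      map_smul' := fun c f => by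
        ext x
        show leftInv A F r ψ (c • f) x = c * leftInv A F r ψ f x
        by_cases h : x ∈ star A
        · rw [leftInv_of_mem _ h, leftInv_of_mem _ h]
          show r⁻¹ * (c * f _) = _
          ring
        · rw [leftInv_of_not_mem _ h, leftInv_of_not_mem _ h, mul_zero] }
    |r⁻¹| (by
      intro g
      show ‖leftInv A F r ψ g‖ ≤ _
      rw [BoundedContinuousFunction.norm_le (by positivity)]
      intro x
      by_cases h : x ∈ star A
      · rw [leftInv_of_mem _ h, Real.norm_eq_abs, abs_mul]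
        exact mul_le_mul_of_nonneg_left (g.norm_coe_le_norm _) (abs_nonneg _)
      · rw [leftInv_of_not_mem _ h, norm_zero]
        positivity)

theorem leftInvL_spec {A : Set ℕ} {F : Set NStar} {r : ℝ} (hr : r ≠ 0) {ψ : F ≃ₜ star A}
    {T : (NStar →ᵇ ℝ) →L[ℝ] (NStar →ᵇ ℝ)}
    (h : ∀ G : C(StoneCech ℕ, ℝ), (∀ n : ℕ, n ∉ A → G (stoneCechUnit n) = 0) →
      ∀ x : F, T (resG G) x.1 = r * G ((ψ x).1).1) (G : C(StoneCech ℕ, ℝ))
    (hG : ∀ n : ℕ, n ∉ A → G (stoneCechUnit n) = 0) :
    leftInvL A F r ψ (T (resG G)) = resG G := by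
  ext x
  show leftInv A F r ψ (T (resG G)) x = G x.1
  by_cases hx : x ∈ star A
  · rw [leftInv_of_mem _ hx, h G hG, Homeomorph.apply_symm_apply, ← mul_assoc,
      inv_mul_cancel₀ hr, one_mul]
  · rw [leftInv_of_not_mem _ hx]
    have h1 := DFunLike.congr_fun (chi_mul_supported A G hG) x
    have h2 : NS.ext (chi A) x.1 * G x.1 = G x.1 := h1
    rw [ext_chi_eq_zero hx, zero_mul] at h2
    exact h2

end Pool.Agent.W684.Canon
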