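import Mathlib

/-!
Combinatorial core of the proof that, under Martin's axiom for `ℵ₁` dense sets, `C(ℕ*)` is
`(λ, ℵ₂)`-injective for every `λ > 3`.
-/

set_option autoImplicit false

namespace Pool.Agent.W684

open Finset

theorem thin {ι κ : Type*} [Countable κ] {A : Set ι} (hA : ¬ A.Countable) (f : ι → κ → Prop)
    (hf : ∀ a ∈ A, ∃ c, f a c) : ∃ c, ¬ {a ∈ A | f a c}.Countable := by
  by_contra h
  push Not at h
  apply hA
  have : A ⊆ ⋃ c, {a ∈ A | f a c} := by
    intro a ha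
    obtain ⟨c, hc⟩ := hf a ha
    exact Set.mem_iUnion.2 ⟨c, ha, hc⟩
  exact (Set.countable_iUnion h).mono this

theorem thinf {ι κ : Type*} [Countable κ] {A : Set ι} (hA : ¬ A.Countable) (f : ι → κ) :
    ∃ c, ¬ {a ∈ A | f a = c}.Countable :=
  thin hA (fun a c => f a = c) fun a _ => ⟨f a, rfl⟩

/-- the maximal root -/
theorem root {ι B : Type*} {A : Set ι} (hA : ¬ A.Countable) {M : ℕ} (e : ι → Fin M → B) :
    ∃ (R : Finset (Fin M)) (r : Fin M → B) (A' : Set ι), A' ⊆ A ∧ ¬ A'.Countable ∧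
      (∀ a ∈ A', ∀ l ∈ R, e a l = r l) ∧ ∀ l ∉ R, ∀ b, {a ∈ A' | e a l = b}.Countable := by
  classical
  obtain ⟨a0, ha0⟩ : A.Nonempty := by
    rw [Set.nonempty_iff_ne_empty]
    rintro rfl
    exact hA Set.countable_empty
  let F : Finset (Finset (Fin M)) := Finset.univ.filter fun R =>
    ∃ r : Fin M → B, ¬ {a ∈ A | ∀ l ∈ R, e a l = r l}.Countable
  have hF : F.Nonempty := by
    refine ⟨∅, ?_⟩
    simp only [F, Finset.mem_filter, Finset.mem_univ, true_and]
    refine ⟨e a0, ?_⟩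
    simpa using hA
  obtain ⟨R, hR, hmax⟩ := Finset.exists_max_image F Finset.card hF
  simp only [F, Finset.mem_filter, Finset.mem_univ, true_and] at hR hmax
  obtain ⟨r, hr⟩ := hR
  refine ⟨R, r, {a ∈ A | ∀ l ∈ R, e a l = r l}, fun a ha => ha.1, hr, fun a ha => ha.2, ?_⟩
  intro l hl b
  by_contra hcon
  have h1 : (insert l R).card ≤ R.card := by
    apply hmax
    refine ⟨Function.update r l b, ?_⟩
    intro hc
    apply hcon
    refine hc.mono ?_
    rintro a ⟨⟨ha, h1⟩, h2⟩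
    refine ⟨ha, ?_⟩
    intro l' hl'
    rcases Finset.mem_insert.1 hl' with h3 | h3
    · subst h3
      simpa using h2
    · have h4 : l' ≠ l := by
        rintro rfl
        exact hl h3
      rw [Function.update_of_ne h4]
      exact h1 l' h3
  rw [Finset.card_insert_of_notMem hl] at h1
  omega

section

variable {J B : Type*}

/-- evaluation of a formal rational combination -/
noncomputable def ev (φ : B → ℝ) (f : B →₀ ℚ) : ℝ := f.sum fun b c => (c : ℝ) * φ b

/-- gluing two functions along the complement of the root -/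
theorem glue {M : ℕ} {R : Finset (Fin M)} {r : Fin M → B} {ea eb : Fin M → B}
    (hb : Function.Injective eb) (hrb : ∀ l ∈ R, eb l = r l)
    (hd : ∀ l ∉ R, ∀ l', ea l' ≠ eb l) (φa φb : B → ℝ) (w : Fin M → ℝ) :
    ∃ φ : B → ℝ, (∀ l, φ (ea l) = φa (ea l)) ∧ (∀ l ∈ R, φ (eb l) = φa (r l)) ∧
      ∀ l ∉ R, φ (eb l) = φb (eb l) + w l := by
  classical
  refine ⟨fun b => if h : ∃ l, l ∉ R ∧ eb l = b then φb b + w h.choose else φa b, ?_, ?_, ?_⟩
  · intro l
    have : ¬ ∃ l', l' ∉ R ∧ eb l' = ea l := by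
      rintro ⟨l', h1, h2⟩
      exact hd l' h1 l h2.symm
    simp [this]
  · intro l hl
    have : ¬ ∃ l', l' ∉ R ∧ eb l' = eb l := by
      rintro ⟨l', h1, h2⟩
      exact h1 (hb h2 ▸ hl)
    simp only [this, dite_false]
    rw [hrb l hl]
  · intro l hl
    have h : ∃ l', l' ∉ R ∧ eb l' = eb l := ⟨l, hl, rfl⟩
    simp only [h, dite_true]
    have := hb h.choose_spec.2
    rw [this]

variable (τ : ℕ → J → ℝ) (Nm : J × (B →₀ ℚ) → ℝ)

/-- the finite system `G` of constraints is solvable at `k` with the constant `c` -/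
def Solv (c : ℝ) (k : ℕ) (G : Finset (J × (B →₀ ℚ))) : Prop :=
  ∃ φ : B → ℝ, ∀ x ∈ G, |τ k x.1 + ev φ x.2| < c * Nm x

/-- each finite system is solvable with a constant close to `1`, from some point on -/
def Asym : Prop :=
  ∀ G : Finset (J × (B →₀ ℚ)), (∀ x ∈ G, 0 < Nm x) → ∀ c : ℝ, 1 < c →
    ∃ m : ℕ, ∀ k, m ≤ k → Solv τ Nm c k G

variable {τ Nm}

theorem pair_exists (H : Asym τ Nm) {lam : ℝ} (hlam : 3 < lam) {ι : Type*} {A : Set ι}
    (hA : ¬ A.Countable) {N M : ℕ} (n : Fin N → ℕ) (q : Fin N → Fin M → ℚ)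
    (x : ι → Fin N → J × (B →₀ ℚ)) (e : ι → Fin M → B)
    (hinj : ∀ a ∈ A, Function.Injective (e a))
    (hev : ∀ a ∈ A, ∀ (φ : B → ℝ) (i : Fin N), ev φ (x a i).2 = ∑ l, (q i l : ℝ) * φ (e a l))
    (hpos : ∀ a ∈ A, ∀ i, 0 < Nm (x a i))
    (hgood : ∀ a ∈ A, ∀ k, ∃ φ : B → ℝ, ∀ i, n i ≤ k →
      |τ k (x a i).1 + ev φ (x a i).2| < lam * Nm (x a i)) :
    ∃ a ∈ A, ∃ b ∈ A, a ≠ b ∧ ∀ k, ∃ φ : B → ℝ, ∀ i, n i ≤ k →
      |τ k (x a i).1 + ev φ (x a i).2| < lam * Nm (x a i) ∧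
      |τ k (x b i).1 + ev φ (x b i).2| < lam * Nm (x b i) := by
  classical
  -- the constant `c`
  obtain ⟨c, hc1, hc2⟩ : ∃ c : ℝ, 1 < c ∧ c * (1 + 2 * c) < lam := by
    refine ⟨1 + min 1 ((lam - 3) / 10), ?_, ?_⟩
    · have : 0 < min 1 ((lam - 3) / 10) := lt_min one_pos (by linarith)
      linarith
    · set d := min 1 ((lam - 3) / 10) with hd
      have h0 : 0 < d := lt_min one_pos (by linarith)
      have h1 : d ≤ 1 := min_le_left _ _
      have h2 : d ≤ (lam - 3) / 10 := min_le_right _ _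
      nlinarith
  have hclam : c < lam := by nlinarith
  -- lower bound for the norms
  obtain ⟨s0, hs0⟩ : ∃ s0 : ℕ, ¬ {a ∈ A | ∀ i, 1 / ((s0 : ℝ) + 1) < Nm (x a i)}.Countable := by
    refine thin hA (fun (a : ι) (s : ℕ) => ∀ i, 1 / ((s : ℝ) + 1) < Nm (x a i)) ?_
    intro a ha
    have : ∀ i, ∃ s : ℕ, 1 / ((s : ℝ) + 1) < Nm (x a i) := fun i =>
      exists_nat_one_div_lt (hpos a ha i)
    choose s hs using this
    refine ⟨Finset.univ.sup s, fun i => lt_of_le_of_lt ?_ (hs i)⟩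
    have h1 : s i ≤ Finset.univ.sup s := Finset.le_sup (Finset.mem_univ i)
    have h2 : (s i : ℝ) ≤ (Finset.univ.sup s : ℕ) := by exact_mod_cast h1
    apply one_div_le_one_div_of_le
    · positivity
    · linarith
  set A1 : Set ι := {a ∈ A | ∀ i, 1 / ((s0 : ℝ) + 1) < Nm (x a i)} with hA1
  have hρ : (0 : ℝ) < 1 / ((s0 : ℝ) + 1) := by positivity
  set ρ : ℝ := 1 / ((s0 : ℝ) + 1) with hρdef
  -- closeness of the norms
  have hδ1 : 0 < (c - 1) * ρ := mul_pos (by linarith) hρ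
  obtain ⟨z1, hz1⟩ := thinf hs0 (fun a => fun i : Fin N => ⌊Nm (x a i) / ((c - 1) * ρ)⌋)
  set A2 : Set ι := {a ∈ A1 | (fun i : Fin N => ⌊Nm (x a i) / ((c - 1) * ρ)⌋) = z1} with hA2
  -- the root
  obtain ⟨R, r, A3, hA3, hA3u, hr, hmax⟩ := root hz1 e
  have sub3 : ∀ a ∈ A3, a ∈ A := fun a ha => (hA3 ha).1.1
  obtain ⟨a0, ha0⟩ : A3.Nonempty := by
    rw [Set.nonempty_iff_ne_empty]
    intro h
    rw [h] at hA3u
    exact hA3u Set.countable_empty
  have hnorm : ∀ a ∈ A3, ∀ i, Nm (x a0 i) ≤ c * Nm (x a i) := by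
    intro a ha i
    have h1 : ⌊Nm (x a0 i) / ((c - 1) * ρ)⌋ = z1 i := congrFun (hA3 ha0).2 i
    have h2 : ⌊Nm (x a i) / ((c - 1) * ρ)⌋ = z1 i := congrFun (hA3 ha).2 i
    have h3 := (Int.floor_eq_iff.1 h1).2
    have h4 := (Int.floor_eq_iff.1 h2).1
    have h5 : Nm (x a0 i) / ((c - 1) * ρ) - Nm (x a i) / ((c - 1) * ρ) < 1 := by linarith
    rw [← sub_div, div_lt_one hδ1] at h5
    have h6 : ρ < Nm (x a i) := (hA3 ha).1.2 i
    nlinarith
  -- the point from which on the comparison with `a0` works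
  obtain ⟨m, hm⟩ : ∃ m : ℕ, ¬ {a ∈ A3 | ∀ k, m ≤ k → Solv τ Nm c k
      (Finset.univ.image (x a) ∪ Finset.univ.image (x a0))}.Countable := by
    refine thin hA3u (fun (a : ι) (m : ℕ) => ∀ k, m ≤ k → Solv τ Nm c k
      (Finset.univ.image (x a) ∪ Finset.univ.image (x a0))) ?_
    intro a ha
    apply H _ _ c hc1
    intro y hy
    rcases Finset.mem_union.1 hy with h | h <;> obtain ⟨i, -, rfl⟩ := Finset.mem_image.1 h
    · exact hpos a (sub3 a ha) i
    · exact hpos a0 (sub3 a0 ha0) i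
  set A4 : Set ι := {a ∈ A3 | ∀ k, m ≤ k → Solv τ Nm c k
      (Finset.univ.image (x a) ∪ Finset.univ.image (x a0))} with hA4
  -- solutions at all `k`, with margins for `k < m`
  choose! φ hφ using hgood
  obtain ⟨s, hs⟩ : ∃ s : ℕ, ¬ {a ∈ A4 | ∀ k : Fin m, ∀ i, n i ≤ (k : ℕ) →
      |τ k (x a i).1 + ev (φ a k) (x a i).2| + 1 / ((s : ℝ) + 1) < lam * Nm (x a i)}.Countable := by
    refine thin hm (fun (a : ι) (s : ℕ) => ∀ k : Fin m, ∀ i, n i ≤ (k : ℕ) →
      |τ k (x a i).1 + ev (φ a k) (x a i).2| + 1 / ((s : ℝ) + 1) < lam * Nm (x a i)) ?_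
    intro a ha
    have : ∀ k : Fin m, ∀ i, ∃ s : ℕ, n i ≤ (k : ℕ) →
        |τ k (x a i).1 + ev (φ a k) (x a i).2| + 1 / ((s : ℝ) + 1) < lam * Nm (x a i) := by
      intro k i
      by_cases h : n i ≤ (k : ℕ)
      · have h1 := hφ a (sub3 a ha.1) k i h
        obtain ⟨s, hs⟩ := exists_nat_one_div_lt (sub_pos.2 h1)
        exact ⟨s, fun _ => by linarith⟩
      · exact ⟨0, fun h' => absurd h' h⟩
    choose s hs using this
    refine ⟨Finset.univ.sup fun k => Finset.univ.sup fun i => s k i, fun k i hi => ?_⟩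
    have h1 : s k i ≤ Finset.univ.sup fun k => Finset.univ.sup fun i => s k i :=
      (Finset.le_sup (f := fun i => s k i) (Finset.mem_univ i)).trans
        (Finset.le_sup (f := fun k => Finset.univ.sup fun i => s k i) (Finset.mem_univ k))
    have h2 : 1 / (((Finset.univ.sup fun k => Finset.univ.sup fun i => s k i : ℕ) : ℝ) + 1) ≤
        1 / ((s k i : ℝ) + 1) := by
      apply one_div_le_one_div_of_le
      · positivity
      · have : (s k i : ℝ) ≤ (Finset.univ.sup fun k => Finset.univ.sup fun i => s k i : ℕ) := by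
          exact_mod_cast h1
        linarith
    linarith [hs k i hi]
  set A5 : Set ι := {a ∈ A4 | ∀ k : Fin m, ∀ i, n i ≤ (k : ℕ) →
      |τ k (x a i).1 + ev (φ a k) (x a i).2| + 1 / ((s : ℝ) + 1) < lam * Nm (x a i)} with hA5
  -- closeness of the values at the root for `k < m`
  set Q : ℝ := 1 + ∑ i, ∑ l, |(q i l : ℝ)| with hQ
  have hQ0 : 0 < Q := by
    have : 0 ≤ ∑ i, ∑ l, |(q i l : ℝ)| :=
      Finset.sum_nonneg fun i _ => Finset.sum_nonneg fun l _ => abs_nonneg _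
    linarith
  set δ : ℝ := 1 / ((s : ℝ) + 1) / Q with hδ
  have hδ0 : 0 < δ := by positivity
  obtain ⟨z2, hz2⟩ := thinf hs (fun a => fun (k : Fin m) (l : Fin M) => ⌊φ a k (e a l) / δ⌋)
  set A6 : Set ι := {a ∈ A5 | (fun (k : Fin m) (l : Fin M) => ⌊φ a k (e a l) / δ⌋) = z2} with hA6
  obtain ⟨a, ha⟩ : A6.Nonempty := by
    rw [Set.nonempty_iff_ne_empty]
    intro h
    rw [h] at hz2
    exact hz2 Set.countable_empty
  -- choice of the second index
  obtain ⟨b, hb, hba, hdis⟩ : ∃ b ∈ A6, b ≠ a ∧ ∀ l ∉ R, ∀ l', e a l' ≠ e b l := by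
    by_contra hcon
    push Not at hcon
    apply hz2
    have : A6 ⊆ {a} ∪ ⋃ l : {l // l ∉ R}, ⋃ l' : Fin M, {b ∈ A3 | e b l = e a l'} := by
      intro b hb
      by_cases hba : b = a
      · exact Or.inl hba
      · obtain ⟨l, hl, l', h⟩ := hcon b hb hba
        refine Or.inr (Set.mem_iUnion.2 ⟨⟨l, hl⟩, Set.mem_iUnion.2 ⟨l', hb.1.1.1, h.symm⟩⟩)
    refine Set.Countable.mono this ?_
    refine (Set.countable_singleton a).union ?_
    exact Set.countable_iUnion fun l => Set.countable_iUnion fun l' => hmax l l.2 _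
  have ha3 : a ∈ A3 := ha.1.1.1
  have hb3 : b ∈ A3 := hb.1.1.1
  have haA := sub3 a ha3
  have hbA := sub3 b hb3
  refine ⟨a, haA, b, hbA, hba.symm, ?_⟩
  intro k
  -- evaluation of the glued function
  have key : ∀ (φa φb : B → ℝ) (w : Fin M → ℝ), ∃ ψ : B → ℝ, ∀ i,
      ev ψ (x a i).2 = ev φa (x a i).2 ∧
      ev ψ (x b i).2 = ev φb (x b i).2 + (∑ l ∈ R, (q i l : ℝ) * (φa (r l) - φb (r l)) +
        ∑ l ∈ Rᶜ, (q i l : ℝ) * w l) := by
    intro φa φb w
    obtain ⟨ψ, h1, h2, h3⟩ := glue (hinj b hbA) (hr b hb3) hdis φa φb w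
    refine ⟨ψ, fun i => ⟨?_, ?_⟩⟩
    · rw [hev a haA, hev a haA]
      exact Finset.sum_congr rfl fun l _ => by rw [h1]
    · rw [hev b hbA, hev b hbA]
      rw [← Finset.sum_add_sum_compl R, ← Finset.sum_add_sum_compl R (fun l =>
        (q i l : ℝ) * φb (e b l))]
      have e1 : ∑ l ∈ R, (q i l : ℝ) * ψ (e b l) = ∑ l ∈ R, (q i l : ℝ) * φb (e b l) +
          ∑ l ∈ R, (q i l : ℝ) * (φa (r l) - φb (r l)) := by
        rw [← Finset.sum_add_distrib]
        refine Finset.sum_congr rfl fun l hl => ?_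
        rw [h2 l hl, hr b hb3 l hl]
        ring
      have e2 : ∑ l ∈ Rᶜ, (q i l : ℝ) * ψ (e b l) = ∑ l ∈ Rᶜ, (q i l : ℝ) * φb (e b l) +
          ∑ l ∈ Rᶜ, (q i l : ℝ) * w l := by
        rw [← Finset.sum_add_distrib]
        refine Finset.sum_congr rfl fun l hl => ?_
        rw [h3 l (Finset.mem_compl.1 hl)]
        ring
      rw [e1, e2]
      ring
  by_cases hk : m ≤ k
  · -- large `k`
    obtain ⟨φa, hφa⟩ := ha.1.1.2 k hk
    obtain ⟨φb, hφb⟩ := hb.1.1.2 k hk
    obtain ⟨ψ, hψ⟩ := key φa φb (fun l => φa (e a0 l) - φb (e a0 l))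
    refine ⟨ψ, fun i _ => ⟨?_, ?_⟩⟩
    · rw [(hψ i).1]
      have h1 := hφa (x a i) (Finset.mem_union_left _ (Finset.mem_image_of_mem _ (Finset.mem_univ i)))
      refine h1.trans ?_
      exact mul_lt_mul_of_pos_right hclam (hpos a haA i)
    · rw [(hψ i).2]
      have e1 : ∑ l ∈ R, (q i l : ℝ) * (φa (r l) - φb (r l)) +
          ∑ l ∈ Rᶜ, (q i l : ℝ) * (φa (e a0 l) - φb (e a0 l)) =
          ev φa (x a0 i).2 - ev φb (x a0 i).2 := by
        rw [hev a0 (sub3 a0 ha0), hev a0 (sub3 a0 ha0), ← Finset.sum_sub_distrib,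
          ← Finset.sum_add_sum_compl R]
        congr 1
        · exact Finset.sum_congr rfl fun l hl => by rw [hr a0 ha0 l hl]; ring
        · exact Finset.sum_congr rfl fun l hl => by ring
      rw [e1]
      have h1 := hφb (x b i) (Finset.mem_union_left _ (Finset.mem_image_of_mem _ (Finset.mem_univ i)))
      have h2 := hφa (x a0 i) (Finset.mem_union_right _ (Finset.mem_image_of_mem _ (Finset.mem_univ i)))
      have h3 := hφb (x a0 i) (Finset.mem_union_right _ (Finset.mem_image_of_mem _ (Finset.mem_univ i)))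
      have h4 := hnorm b hb3 i
      have h5 := hpos b hbA i
      have e2 : τ k (x b i).1 + (ev φb (x b i).2 + (ev φa (x a0 i).2 - ev φb (x a0 i).2)) =
          (τ k (x b i).1 + ev φb (x b i).2) + (τ k (x a0 i).1 + ev φa (x a0 i).2) -
            (τ k (x a0 i).1 + ev φb (x a0 i).2) := by ring
      rw [e2]
      have h6 : |(τ k (x b i).1 + ev φb (x b i).2) + (τ k (x a0 i).1 + ev φa (x a0 i).2) -
            (τ k (x a0 i).1 + ev φb (x a0 i).2)| ≤ |τ k (x b i).1 + ev φb (x b i).2| +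
            |τ k (x a0 i).1 + ev φa (x a0 i).2| + |τ k (x a0 i).1 + ev φb (x a0 i).2| := by
        refine (abs_sub _ _).trans ?_
        gcongr
        exact abs_add_le _ _
      refine h6.trans_lt ?_
      have h7 : c * Nm (x a0 i) ≤ c * (c * Nm (x b i)) := by
        apply mul_le_mul_of_nonneg_left h4
        linarith
      nlinarith
  · -- small `k`
    push Not at hk
    obtain ⟨ψ, hψ⟩ := key (φ a k) (φ b k) (fun _ => 0)
    refine ⟨ψ, fun i hi => ⟨?_, ?_⟩⟩
    · rw [(hψ i).1]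
      exact hφ a haA k i hi
    · rw [(hψ i).2]
      have h1 := hb.1.2 ⟨k, hk⟩ i hi
      simp only at h1
      have h2 : |∑ l ∈ R, (q i l : ℝ) * (φ a k (r l) - φ b k (r l)) +
          ∑ l ∈ Rᶜ, (q i l : ℝ) * (0 : ℝ)| ≤ 1 / ((s : ℝ) + 1) := by
        simp only [mul_zero, Finset.sum_const_zero, add_zero]
        calc |∑ l ∈ R, (q i l : ℝ) * (φ a k (r l) - φ b k (r l))|
            ≤ ∑ l ∈ R, |(q i l : ℝ) * (φ a k (r l) - φ b k (r l))| :=
              Finset.abs_sum_le_sum_abs _ _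
          _ ≤ ∑ l ∈ R, |(q i l : ℝ)| * δ := by
              refine Finset.sum_le_sum fun l hl => ?_
              rw [abs_mul]
              refine mul_le_mul_of_nonneg_left ?_ (abs_nonneg _)
              have g1 : ⌊φ a k (e a l) / δ⌋ = z2 ⟨k, hk⟩ l :=
                congrFun (congrFun ha.2 ⟨k, hk⟩) l
              have g2 : ⌊φ b k (e b l) / δ⌋ = z2 ⟨k, hk⟩ l :=
                congrFun (congrFun hb.2 ⟨k, hk⟩) l
              rw [hr a ha3 l hl] at g1
              rw [hr b hb3 l hl] at g2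
              have g3 : |φ a k (r l) / δ - φ b k (r l) / δ| < 1 :=
                Int.abs_sub_lt_one_of_floor_eq_floor (g1.trans g2.symm)
              rw [← sub_div, abs_div, abs_of_pos hδ0, div_lt_one hδ0] at g3
              exact g3.le
          _ = (∑ l ∈ R, |(q i l : ℝ)|) * δ := by rw [Finset.sum_mul]
          _ ≤ Q * δ := by
              apply mul_le_mul_of_nonneg_right _ hδ0.le
              have g1 : ∑ l ∈ R, |(q i l : ℝ)| ≤ ∑ l, |(q i l : ℝ)| :=
                Finset.sum_le_sum_of_subset_of_nonneg (Finset.subset_univ _)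
                  fun _ _ _ => abs_nonneg _
              have g2 : ∑ l, |(q i l : ℝ)| ≤ ∑ i, ∑ l, |(q i l : ℝ)| :=
                Finset.single_le_sum (f := fun i => ∑ l, |(q i l : ℝ)|)
                  (fun i _ => Finset.sum_nonneg fun l _ => abs_nonneg _) (Finset.mem_univ i)
              linarith
          _ = 1 / ((s : ℝ) + 1) := by
              rw [hδ]
              field_simp
      rw [← add_assoc]
      refine (abs_add_le _ _).trans_lt ?_
      linarith

end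

end Pool.Agent.W684
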