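import Pool.Agent.W684.Inj

/-!
Under Martin's axiom for `ℵ₁` dense sets `Ext²(Y, c₀) = 0` for all Banach spaces `Y` of density
character at most `ℵ₁`.
-/

set_option autoImplicit false

namespace Pool.Agent.W684

open Cardinal Filter Topology
open scoped BoundedContinuousFunction ZeroAtInfty ENNReal

universe u v w

/-- operators into `E` extend from closed subspaces of Banach spaces of density `< κ` -/
def ExtProp (κ : Cardinal.{u}) (E : Type v) [NormedAddCommGroup E] [NormedSpace ℝ E] : Prop :=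
  ∀ (X : Type u) [NormedAddCommGroup X] [NormedSpace ℝ X] [CompleteSpace X],
    (∃ D : Set X, Dense D ∧ #D < κ) →
    ∀ Y : Submodule ℝ X, IsClosed (Y : Set X) → ∀ t : Y →L[ℝ] E,
      ∃ T : X →L[ℝ] E, ∀ y : Y, T y = t y

/-- `ℓ_∞(Γ)` is injective. -/
theorem ext_linf {Γ : Type v} {X : Type u} [NormedAddCommGroup X] [NormedSpace ℝ X]
    (Y : Submodule ℝ X) (t : Y →L[ℝ] lp (fun _ : Γ => ℝ) ∞) :
    ∃ T : X →L[ℝ] lp (fun _ : Γ => ℝ) ∞, ∀ y : Y, T y = t y := by
  have h : ∀ γ : Γ, ∃ g : StrongDual ℝ X, (∀ y : Y, g y = t y γ) ∧ ‖g‖ ≤ ‖t‖ := by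
    intro γ
    let f : Y →ₗ[ℝ] ℝ :=
      { toFun := fun y => t y γ
        map_add' := fun y z => by simp
        map_smul' := fun r y => by simp }
    have hf : ∀ y, ‖f y‖ ≤ ‖t‖ * ‖y‖ := fun y =>
      (lp.norm_apply_le_norm ENNReal.top_ne_zero (t y) γ).trans (t.le_opNorm y)
    obtain ⟨g, hg1, hg2⟩ := exists_extension_norm_eq Y (f.mkContinuous _ hf)
    refine ⟨g, hg1, ?_⟩
    rw [hg2]
    exact LinearMap.mkContinuous_norm_le _ t.opNorm_nonneg _
  choose g hg1 hg2 using h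
  have hb : ∀ x γ, ‖g γ x‖ ≤ ‖t‖ * ‖x‖ := fun x γ =>
    ((g γ).le_opNorm x).trans (mul_le_mul_of_nonneg_right (hg2 γ) (norm_nonneg _))
  let T : X →ₗ[ℝ] lp (fun _ : Γ => ℝ) ∞ :=
    { toFun := fun x => ⟨fun γ => g γ x, memℓp_infty ⟨‖t‖ * ‖x‖, by
        rintro _ ⟨γ, rfl⟩
        exact hb x γ⟩⟩
      map_add' := fun x y => by
        ext γ
        exact map_add (g γ) x y
      map_smul' := fun r x => by
        ext γ
        exact map_smul (g γ) r x }
  refine ⟨T.mkContinuous ‖t‖ fun x => ?_, fun y => ?_⟩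
  · rcases isEmpty_or_nonempty Γ with hΓ | hΓ
    · have : T x = 0 := by
        ext γ
        exact hΓ.elim γ
      rw [this, norm_zero]
      exact mul_nonneg t.opNorm_nonneg (norm_nonneg _)
    · exact lp.norm_le_of_forall_le' _ fun γ => hb x γ
  · ext γ
    exact hg1 γ y

theorem ext_bounded {X : Type u} [NormedAddCommGroup X] [NormedSpace ℝ X]
    (Y : Submodule ℝ X) (t : Y →L[ℝ] (ℕ →ᵇ ℝ)) :
    ∃ T : X →L[ℝ] (ℕ →ᵇ ℝ), ∀ y : Y, T y = t y := by
  let E : lp (fun _ : ℕ => ℝ) ∞ ≃L[ℝ] (ℕ →ᵇ ℝ) := (lpBCFₗᵢ ℝ ℝ).toContinuousLinearEquiv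
  obtain ⟨T, hT⟩ := ext_linf Y ((E.symm : (ℕ →ᵇ ℝ) →L[ℝ] lp (fun _ : ℕ => ℝ) ∞).comp t)
  refine ⟨(E : lp (fun _ : ℕ => ℝ) ∞ →L[ℝ] (ℕ →ᵇ ℝ)).comp T, fun y => ?_⟩
  simp [hT]

/-- factorisation through a surjection -/
theorem factor {A : Type u} {B : Type v} {C : Type w} [NormedAddCommGroup A] [NormedSpace ℝ A]
    [CompleteSpace A] [NormedAddCommGroup B] [NormedSpace ℝ B] [CompleteSpace B]
    [NormedAddCommGroup C] [NormedSpace ℝ C] (p : A →L[ℝ] B) (hp : Function.Surjective p)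
    (g : A →L[ℝ] C) (h : ∀ a, p a = 0 → g a = 0) : ∃ F : B →L[ℝ] C, ∀ a, F (p a) = g a := by
  have hle : LinearMap.ker p.toLinearMap ≤ LinearMap.ker g.toLinearMap := fun a ha => h a ha
  let F : B →ₗ[ℝ] C := (LinearMap.ker p.toLinearMap).liftQ g.toLinearMap hle ∘ₗ
    (p.toLinearMap.quotKerEquivOfSurjective hp).symm.toLinearMap
  have hF : ∀ a, F (p a) = g a := by
    intro a
    have h1 : (p.toLinearMap.quotKerEquivOfSurjective hp).symm (p a) = Submodule.Quotient.mk a := by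
      rw [LinearEquiv.symm_apply_eq]
      rfl
    show (LinearMap.ker p.toLinearMap).liftQ g.toLinearMap hle
      ((p.toLinearMap.quotKerEquivOfSurjective hp).symm (p a)) = g a
    rw [h1]
    rfl
  refine ⟨⟨F, ?_⟩, hF⟩
  rw [(p.isQuotientMap hp).continuous_iff]
  have : (F.toFun ∘ p) = g := funext hF
  show Continuous (F.toFun ∘ p)
  rw [this]
  exact g.continuous

/-- the embedding of `c₀` into the bounded sequences -/
noncomputable def jc : C₀(ℕ, ℝ) →L[ℝ] (ℕ →ᵇ ℝ) :=
  LinearMap.mkContinuous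
    { toFun := fun f => ZeroAtInftyContinuousMap.toBCF f
      map_add' := fun f g => by ext; rfl
      map_smul' := fun r f => by ext; rfl } 1 fun f => by
        rw [one_mul]
        exact le_of_eq (ZeroAtInftyContinuousMap.norm_toBCF_eq_norm)

theorem jc_apply (f : C₀(ℕ, ℝ)) (n : ℕ) : jc f n = f n := rfl

theorem norm_jc (f : C₀(ℕ, ℝ)) : ‖jc f‖ = ‖f‖ := ZeroAtInftyContinuousMap.norm_toBCF_eq_norm

/-- the quotient map as a bounded operator -/
noncomputable def quoL : (ℕ →ᵇ ℝ) →L[ℝ] (NStar →ᵇ ℝ) :=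
  LinearMap.mkContinuous NS.quo 1 fun g => by
    rw [one_mul]
    exact NS.norm_quo_le (norm_nonneg _) (Eventually.of_forall fun k => g.norm_coe_le_norm k)

theorem quoL_apply (g : ℕ →ᵇ ℝ) : quoL g = NS.quo g := rfl

theorem quoL_eq_zero (g : ℕ →ᵇ ℝ) : quoL g = 0 ↔ ∃ f, jc f = g := by
  constructor
  · intro h
    have h1 : Tendsto g (cocompact ℕ) (𝓝 0) := by
      rw [cocompact_eq_cofinite, Nat.cofinite_eq_atTop, Metric.tendsto_nhds]
      intro ε hε
      have h2 : ‖NS.quo g‖ < ε := by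
        rw [← quoL_apply, h, norm_zero]
        exact hε
      filter_upwards [NS.eventually_of_norm_quo_lt h2] with k hk
      simpa using hk
    exact ⟨⟨⟨g, g.continuous⟩, h1⟩, by ext; rfl⟩
  · rintro ⟨f, rfl⟩
    rw [← norm_le_zero_iff]
    apply le_of_forall_pos_le_add
    intro ε hε
    rw [zero_add, quoL_apply]
    apply NS.norm_quo_le hε.le
    have h1 : Tendsto f (cocompact ℕ) (𝓝 0) := f.zero_at_infty'
    rw [cocompact_eq_cofinite, Nat.cofinite_eq_atTop, Metric.tendsto_nhds] at h1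
    filter_upwards [h1 ε hε] with k hk
    rw [dist_zero_right] at hk
    exact hk.le

theorem quoL_surjective : Function.Surjective quoL := NS.quo_surjective

/-- extension of an operator along an injective operator with closed range -/
theorem ext_along {A : Type u} {B : Type v} {C : Type w} [NormedAddCommGroup A] [NormedSpace ℝ A]
    [CompleteSpace A] [NormedAddCommGroup B] [NormedSpace ℝ B] [CompleteSpace B]
    [NormedAddCommGroup C] [NormedSpace ℝ C]
    (hC : ∀ (Y : Submodule ℝ B) (t : Y →L[ℝ] C), ∃ T : B →L[ℝ] C, ∀ y : Y, T y = t y)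
    (i : A →L[ℝ] B) (hi : Function.Injective i) (hcl : IsClosed (Set.range i)) (f : A →L[ℝ] C) :
    ∃ F : B →L[ℝ] C, ∀ a, F (i a) = f a := by
  let E := i.equivRange hi hcl
  obtain ⟨T, hT⟩ := hC (LinearMap.range i.toLinearMap)
    (f.comp (E.symm : LinearMap.range i.toLinearMap →L[ℝ] A))
  refine ⟨T, fun a => ?_⟩
  have h1 := hT (E a)
  have h2 : ((E a : LinearMap.range i.toLinearMap) : B) = i a := rfl
  rw [h2] at h1
  rw [h1]
  simp

section

variable {Γ₀ Γ₁ : Type v} (i : C₀(ℕ, ℝ) →L[ℝ] lp (fun _ : Γ₀ => ℝ) ∞)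
  (d₀ : lp (fun _ : Γ₀ => ℝ) ∞ →L[ℝ] lp (fun _ : Γ₁ => ℝ) ∞)

theorem extProp_cosyzygy {κ : Cardinal.{u}} (hN : ExtProp.{u, 0} κ (NStar →ᵇ ℝ))
    (hi : Function.Injective i) (hex : ∀ x, d₀ x = 0 ↔ ∃ c, i c = x)
    (Q : Submodule ℝ (lp (fun _ : Γ₁ => ℝ) ∞)) (hQc : IsClosed (Q : Set (lp (fun _ : Γ₁ => ℝ) ∞)))
    (hQ : ∀ z, z ∈ Q ↔ ∃ x, d₀ x = z) : ExtProp.{u, v} κ Q := by
  have hQcomp : CompleteSpace Q := hQc.completeSpace_coe
  have hrange : Set.range i = {x | d₀ x = 0} := by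
    ext x
    exact (hex x).symm
  have hicl : IsClosed (Set.range i) := by
    rw [hrange]
    exact isClosed_eq d₀.continuous continuous_const
  have hji : Function.Injective jc := by
    intro f g hfg
    ext n
    have : jc f n = jc g n := by rw [hfg]
    simpa [jc_apply] using this
  have hjcl : IsClosed (Set.range jc) := by
    have : Set.range jc = {g | quoL g = 0} := by
      ext g
      exact (quoL_eq_zero g).symm
    rw [this]
    exact isClosed_eq quoL.continuous continuous_const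
  obtain ⟨a, ha⟩ := ext_along (fun Y t => ext_bounded Y t) i hi hicl jc
  obtain ⟨b, hb⟩ := ext_along (fun Y t => ext_linf Y t) jc hji hjcl i
  -- the corestriction of `d₀`
  let d : lp (fun _ : Γ₀ => ℝ) ∞ →L[ℝ] Q := d₀.codRestrict Q fun x => (hQ _).2 ⟨x, rfl⟩
  have hd : Function.Surjective d := by
    rintro ⟨z, hz⟩
    obtain ⟨x, hx⟩ := (hQ z).1 hz
    exact ⟨x, Subtype.ext hx⟩
  have hd0 : ∀ x, d x = 0 ↔ ∃ c, i c = x := by
    intro x
    rw [← hex x]
    constructor
    · intro h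
      exact congrArg Subtype.val h
    · intro h
      exact Subtype.ext h
  obtain ⟨abar, habar⟩ := factor d hd (quoL.comp a) (by
    intro x hx
    obtain ⟨c, rfl⟩ := (hd0 x).1 hx
    simp only [ContinuousLinearMap.comp_apply, ha]
    exact (quoL_eq_zero _).2 ⟨c, rfl⟩)
  obtain ⟨bbar, hbbar⟩ := factor quoL quoL_surjective (d.comp b) (by
    intro g hg
    obtain ⟨c, rfl⟩ := (quoL_eq_zero g).1 hg
    simp only [ContinuousLinearMap.comp_apply, hb]
    exact (hd0 _).2 ⟨c, rfl⟩)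
  obtain ⟨h, hh⟩ := factor d hd (ContinuousLinearMap.id ℝ _ - b.comp a) (by
    intro x hx
    obtain ⟨c, rfl⟩ := (hd0 x).1 hx
    simp [ha, hb])
  intro X _ _ _ hX Y hY t
  obtain ⟨T₁, hT₁⟩ := hN X hX Y hY (abar.comp t)
  obtain ⟨T₂, hT₂⟩ := ext_linf Y (h.comp t)
  refine ⟨bbar.comp T₁ + d.comp T₂, fun y => ?_⟩
  have key : ∀ z : Q, bbar (abar z) + d (h z) = z := by
    intro z
    obtain ⟨x, rfl⟩ := hd z
    rw [habar, hh, ContinuousLinearMap.comp_apply, hbbar]
    simp
  simp only [ContinuousLinearMap.add_apply, ContinuousLinearMap.comp_apply, hT₁, hT₂]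
  exact key _

end

/-- lifting through a quotient map whose kernel has the extension property -/
theorem lift_main {Z : Type v} {W : Type w} {Y : Type v} [NormedAddCommGroup Z] [NormedSpace ℝ Z]
    [CompleteSpace Z] [NormedAddCommGroup W] [NormedSpace ℝ W] [CompleteSpace W]
    [NormedAddCommGroup Y] [NormedSpace ℝ Y] [CompleteSpace Y] (q : Z →L[ℝ] W)
    (hq : Function.Surjective q) (hker : ExtProp.{v, v} (ℵ_ 2) (LinearMap.ker q.toLinearMap))
    (D : Set Y) (hD : Dense D) (hDc : #D ≤ ℵ₁) (f : Y →L[ℝ] W) :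
    ∃ F : Y →L[ℝ] Z, ∀ y, q (F y) = f y := by
  classical
  obtain ⟨C, hC, hpre⟩ := q.exists_preimage_norm_le hq
  obtain ⟨e, he⟩ := exists_dense_Om D hD hDc
  -- integer combinations
  let c : (Om →₀ ℤ) →+ Y := (Finsupp.linearCombination ℤ e).toAddMonoidHom
  let K : AddSubgroup Y := c.range
  have hK : K.topologicalClosure = ⊤ := by
    rw [eq_top_iff]
    intro y _
    have h1 : y ∈ closure (Set.range e) := he y
    have h2 : Set.range e ⊆ (K : Set Y) := by
      rintro _ ⟨a, rfl⟩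
      exact ⟨Finsupp.single a 1, by simp [c]⟩
    exact closure_mono h2 h1
  have hz : ∀ y : Y, ∃ z : Z, q z = f y ∧ ‖z‖ ≤ C * ‖f‖ * ‖y‖ := by
    intro y
    obtain ⟨z, h1, h2⟩ := hpre (f y)
    refine ⟨z, h1, h2.trans ?_⟩
    rw [mul_assoc]
    exact mul_le_mul_of_nonneg_left (f.le_opNorm y) hC.le
  choose z hz1 hz2 using hz
  let s : (Om →₀ ℤ) → Z × Y := fun k => (z (c k), c k)
  let X : Submodule ℝ (Z × Y) := (Submodule.span ℝ (Set.range s)).topologicalClosure
  have hXc : IsClosed (X : Set (Z × Y)) := Submodule.isClosed_topologicalClosure _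
  have hXcomp : CompleteSpace X := hXc.completeSpace_coe
  have hsX : ∀ k, s k ∈ X := fun k =>
    Submodule.le_topologicalClosure _ (Submodule.subset_span ⟨k, rfl⟩)
  have hXq : ∀ x ∈ X, q x.1 = f x.2 := by
    intro x hx
    have h1 : IsClosed {x : Z × Y | q x.1 = f x.2} :=
      isClosed_eq (q.continuous.comp continuous_fst) (f.continuous.comp continuous_snd)
    have h2 : (Submodule.span ℝ (Set.range s) : Set (Z × Y)) ⊆ {x : Z × Y | q x.1 = f x.2} := by
      intro y hy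
      let M : Submodule ℝ (Z × Y) := LinearMap.ker
        ((q.comp (ContinuousLinearMap.fst ℝ Z Y) - f.comp (ContinuousLinearMap.snd ℝ Z Y) :
          Z × Y →L[ℝ] W)).toLinearMap
      have h3 : Submodule.span ℝ (Set.range s) ≤ M := by
        rw [Submodule.span_le]
        rintro _ ⟨k, rfl⟩
        show q (z (c k)) - f (c k) = 0
        rw [hz1, sub_self]
      have h4 : q y.1 - f y.2 = 0 := h3 hy
      exact sub_eq_zero.1 h4
    exact closure_minimal h2 h1 hx
  -- density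
  have hdens : ∃ D' : Set X, Dense D' ∧ #D' < ℵ_ 2 := by
    let r : ((Om →₀ ℤ) →₀ ℚ) → X := fun w => w.sum fun k a => (a : ℝ) • (⟨s k, hsX k⟩ : X)
    refine ⟨Set.range r, ?_, ?_⟩
    · intro x
      rw [Metric.mem_closure_iff]
      intro ε hε
      have h1 : (x : Z × Y) ∈ closure (Submodule.span ℝ (Set.range s) : Set (Z × Y)) := x.2
      obtain ⟨y, hy, hxy⟩ := Metric.mem_closure_iff.1 h1 (ε / 2) (half_pos hε)
      have hy' : y ∈ Submodule.span ℝ (Set.range s) := hy
      rw [← Set.image_univ, Finsupp.mem_span_image_iff_linearCombination] at hy'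
      obtain ⟨l, -, hl⟩ := hy'
      obtain ⟨w, hw⟩ := approx_fin s l (ε / 2) (half_pos hε)
      refine ⟨r w, ⟨w, rfl⟩, ?_⟩
      have h2 : ((r w : X) : Z × Y) = w.sum fun k a => (a : ℝ) • s k := by
        simp [r, Finsupp.sum]
      have h3 : dist (x : Z × Y) (r w : Z × Y) < ε := by
        have h4 : dist y (r w : Z × Y) < ε / 2 := by
          rw [dist_eq_norm, h2, ← hl, Finsupp.linearCombination_apply]
          exact hw
        calc dist (x : Z × Y) (r w : Z × Y) ≤ dist (x : Z × Y) y + dist y (r w : Z × Y) :=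
              dist_triangle _ _ _
          _ < ε := by linarith
      exact h3
    · have h1 : #((Om →₀ ℤ) →₀ ℚ) ≤ ℵ₁ := by
        have h2 : #(Om →₀ ℤ) ≤ ℵ₁ := by
          rw [Cardinal.mk_finsupp_of_infinite']
          simp only [max_le_iff, Cardinal.lift_id, Cardinal.mk_int]
          exact ⟨mk_Om.le, Cardinal.aleph0_lt_aleph_one.le⟩
        rw [Cardinal.mk_finsupp_of_infinite']
        simp only [max_le_iff, Cardinal.lift_id, Cardinal.mkRat]
        exact ⟨h2, Cardinal.aleph0_lt_aleph_one.le⟩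
      have h3 : #(Set.range r) ≤ Cardinal.lift.{v} #((Om →₀ ℤ) →₀ ℚ) := by
        have := Cardinal.mk_range_le_lift (f := r)
        simpa using this
      have h4 : (ℵ_ 2 : Cardinal.{v}) = Order.succ (ℵ_ 1) := by
        rw [Cardinal.succ_aleph, one_add_one_eq_two]
      rw [h4, Order.lt_succ_iff]
      refine h3.trans ?_
      have h5 := Cardinal.lift_le.{v}.2 h1
      simpa using h5
  -- the projection onto `Y`
  let p : X →L[ℝ] Y := (ContinuousLinearMap.snd ℝ Z Y).comp X.subtypeL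
  have hp : Function.Surjective p := by
    let P : NormedAddGroupHom X Y := ⟨p, map_add p, 1, fun x => by
      rw [one_mul]
      exact norm_snd_le (x : Z × Y)⟩
    have h1 : P.SurjectiveOnWith K (C * ‖f‖ + 1) := by
      rintro y ⟨k, rfl⟩
      refine ⟨⟨s k, hsX k⟩, rfl, ?_⟩
      have h2 := hz2 (c k)
      have h3 : ‖(⟨s k, hsX k⟩ : X)‖ = max ‖z (c k)‖ ‖c k‖ := rfl
      rw [h3, max_le_iff]
      have h4 : 0 ≤ ‖c k‖ := norm_nonneg _
      have h5 : 0 ≤ C * ‖f‖ := mul_nonneg hC.le f.opNorm_nonneg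
      constructor
      · nlinarith
      · nlinarith
    have h2 : 0 < C * ‖f‖ + 1 := by
      have h5 : 0 ≤ C * ‖f‖ := mul_nonneg hC.le f.opNorm_nonneg
      linarith
    have h3 := controlled_closure_of_complete h2 one_pos h1
    intro y
    obtain ⟨x, hx, -⟩ := h3 y (by rw [hK]; trivial)
    exact ⟨x, hx⟩
  let fs : X →L[ℝ] Z := (ContinuousLinearMap.fst ℝ Z Y).comp X.subtypeL
  let Y' : Submodule ℝ X := LinearMap.ker p.toLinearMap
  have hY' : IsClosed (Y' : Set X) := p.isClosed_ker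
  let t : Y' →L[ℝ] LinearMap.ker q.toLinearMap :=
    (fs.comp Y'.subtypeL).codRestrict (LinearMap.ker q.toLinearMap) fun x => by
      have h1 : p (x : X) = 0 := x.2
      have h2 := hXq ((x : X) : Z × Y) (x : X).2
      show q ((x : X) : Z × Y).1 = 0
      rw [h2]
      have h3 : ((x : X) : Z × Y).2 = 0 := h1
      rw [h3, map_zero]
  obtain ⟨T, hT⟩ := hker X hdens Y' hY' t
  obtain ⟨F, hF⟩ := factor p hp (fs - (LinearMap.ker q.toLinearMap).subtypeL.comp T) (by
    intro x hx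
    have h1 := hT ⟨x, hx⟩
    show fs x - (T x : Z) = 0
    rw [h1]
    exact sub_self _)
  refine ⟨F, fun y => ?_⟩
  obtain ⟨x, rfl⟩ := hp y
  rw [hF]
  show q (fs x - (T x : Z)) = f (p x)
  rw [map_sub]
  have h1 : q (T x : Z) = 0 := (T x).2
  rw [h1, sub_zero]
  exact hXq x x.2

end Pool.Agent.W684
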