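import Mathlib

/-!
Vanishing of `Ext` groups of Banach spaces through injective resolutions by spaces `ℓ_∞(Γ)`.
-/

set_option autoImplicit false

namespace Pool.Agent.W684

open scoped ENNReal

universe u v w

/-- The Banach space `ℓ_∞(Γ)` of all bounded real families on `Γ` with the supremum norm. -/
def Linf (Γ : Type v) : Type v := lp (fun _ : Γ => ℝ) ∞

noncomputable instance (Γ : Type v) : NormedAddCommGroup (Linf Γ) :=
  (lp.normedAddCommGroup : NormedAddCommGroup (lp (fun _ : Γ => ℝ) ∞))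

noncomputable instance (Γ : Type v) : NormedSpace ℝ (Linf Γ) :=
  (lp.instNormedSpace : NormedSpace ℝ (lp (fun _ : Γ => ℝ) ∞))

/-- The bounded linear operators from `X` to `Y`. -/
def Op (X : Type u) (Y : Type v) [NormedAddCommGroup X] [NormedSpace ℝ X]
    [NormedAddCommGroup Y] [NormedSpace ℝ Y] : Type (max u v) := X →L[ℝ] Y

/-- The value of a bounded linear operator at a vector. -/
def Op.ap {X : Type u} {Y : Type v} [NormedAddCommGroup X] [NormedSpace ℝ X]
    [NormedAddCommGroup Y] [NormedSpace ℝ Y] (f : Op X Y) (x : X) : Y :=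
  (show X →L[ℝ] Y from f) x

/-- Exactness at `Y` of `X → Y → Z`: the kernel of `g` is the image of `f`. -/
def IsExactAt {X : Type u} {Y : Type v} {Z : Type w} [NormedAddCommGroup X] [NormedSpace ℝ X]
    [NormedAddCommGroup Y] [NormedSpace ℝ Y] [NormedAddCommGroup Z] [NormedSpace ℝ Z]
    (f : Op X Y) (g : Op Y Z) : Prop :=
  ∀ y, g.ap y = 0 ↔ ∃ x, f.ap x = y

/-- An injective resolution `0 → X → ℓ_∞(Γ 0) → ℓ_∞(Γ 1) → ℓ_∞(Γ 2) → ...` of the Banach space
`X` by spaces of the form `ℓ_∞(Γ)`: an exact sequence of bounded operators. -/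
structure InjRes (X : Type u) [NormedAddCommGroup X] [NormedSpace ℝ X] where
  /-- the index sets -/
  Γ : ℕ → Type v
  /-- the embedding of `X` -/
  aug : Op X (Linf (Γ 0))
  /-- the differentials -/
  d : (n : ℕ) → Op (Linf (Γ n)) (Linf (Γ (n + 1)))
  aug_injective : Function.Injective aug.ap
  exact_zero : IsExactAt aug (d 0)
  exact_succ : ∀ n, IsExactAt (d n) (d (n + 1))

/-- `Ext^{n+1}(Y, X) = 0`, computed with the injective resolution `I` of `X`: in the complex
`Hom(Y, ℓ_∞(Γ 0)) → Hom(Y, ℓ_∞(Γ 1)) → ...` every cocycle of degree `n + 1` is a coboundary. -/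
def InjRes.ExtSuccVanishes {X : Type u} [NormedAddCommGroup X] [NormedSpace ℝ X]
    (I : InjRes.{u, v} X) (Y : Type w) [NormedAddCommGroup Y] [NormedSpace ℝ Y] (n : ℕ) : Prop :=
  ∀ f : Op Y (Linf (I.Γ (n + 1))), (∀ y, (I.d (n + 1)).ap (f.ap y) = 0) →
    ∃ F : Op Y (Linf (I.Γ n)), ∀ y, (I.d n).ap (F.ap y) = f.ap y

end Pool.Agent.W684
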