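import Pool.Agent.W684.Ext2
import Pool.Agent.W684.ExtDefs

/-!
`Ext²` of Banach spaces through injective resolutions by spaces `ℓ_∞(Γ)`.
-/

set_option autoImplicit false

namespace Pool.Agent.W684

open Cardinal Filter Topology
open scoped BoundedContinuousFunction ZeroAtInfty ENNReal

universe u v w


instance (Γ : Type v) : CompleteSpace (Linf Γ) :=
  (inferInstance : CompleteSpace (lp (fun _ : Γ => ℝ) ∞))

/-- every Banach space embeds isometrically in a space `ℓ_∞(Γ)` -/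
theorem exists_embed (E : Type v) [NormedAddCommGroup E] [NormedSpace ℝ E] :
    ∃ (Γ : Type v) (j : E →L[ℝ] Linf Γ), ∀ x, ‖j x‖ = ‖x‖ := by
  suffices h : ∃ (Γ : Type v) (j : E →L[ℝ] lp (fun _ : Γ => ℝ) ∞), ∀ x, ‖j x‖ = ‖x‖ from h
  let Γ : Type v := Metric.closedBall (0 : StrongDual ℝ E) 1
  have hb : ∀ (x : E) (g : Γ), ‖(g : StrongDual ℝ E) x‖ ≤ ‖x‖ := by
    intro x g
    have h1 : ‖(g : StrongDual ℝ E)‖ ≤ 1 := mem_closedBall_zero_iff.1 g.2
    exact ((g : StrongDual ℝ E).le_opNorm x).trans (by nlinarith [norm_nonneg x])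
  let T : E →ₗ[ℝ] lp (fun _ : Γ => ℝ) ∞ :=
    { toFun := fun x => ⟨fun g => (g : StrongDual ℝ E) x, memℓp_infty ⟨‖x‖, by
        rintro _ ⟨g, rfl⟩
        exact hb x g⟩⟩
      map_add' := fun x y => by
        ext g
        exact map_add (g : StrongDual ℝ E) x y
      map_smul' := fun r x => by
        ext g
        exact map_smul (g : StrongDual ℝ E) r x }
  have hne : Nonempty Γ := ⟨⟨0, mem_closedBall_zero_iff.2 (by simp)⟩⟩
  have h1 : ∀ x, ‖T x‖ ≤ ‖x‖ := fun x => lp.norm_le_of_forall_le' _ fun g => hb x g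
  refine ⟨Γ, T.mkContinuous 1 fun x => by rw [one_mul]; exact h1 x, fun x => ?_⟩
  apply le_antisymm (h1 x)
  obtain ⟨g, hg1, hg2⟩ := exists_dual_vector'' ℝ x
  have hg : g ∈ Metric.closedBall (0 : StrongDual ℝ E) 1 := mem_closedBall_zero_iff.2 hg1
  have h2 := lp.norm_apply_le_norm ENNReal.top_ne_zero (T x) (⟨g, hg⟩ : Γ)
  have h3 : (T x) (⟨g, hg⟩ : Γ) = g x := rfl
  rw [h3, hg2] at h2
  simpa using h2

/-- one step of the construction of a resolution -/
theorem exists_step (Γ : Type v) (Q : Submodule ℝ (Linf Γ)) (hQ : IsClosed (Q : Set (Linf Γ))) :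
    ∃ (Γ' : Type v) (d : Linf Γ →L[ℝ] Linf Γ'), (∀ x, d x = 0 ↔ x ∈ Q) ∧
      IsClosed (Set.range d) := by
  have : IsClosed (Q : Set (Linf Γ)) := hQ
  obtain ⟨Γ', j, hj⟩ := exists_embed (Linf Γ ⧸ Q)
  refine ⟨Γ', j.comp Q.mkQL, fun x => ?_, ?_⟩
  · rw [← norm_eq_zero, ContinuousLinearMap.comp_apply, hj, norm_eq_zero]
    exact Submodule.Quotient.mk_eq_zero Q
  · have h1 : Set.range (j.comp Q.mkQL) = Set.range j := by
      ext y
      constructor
      · rintro ⟨x, rfl⟩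
        exact ⟨_, rfl⟩
      · rintro ⟨z, rfl⟩
        obtain ⟨x, rfl⟩ := Submodule.Quotient.mk_surjective Q z
        exact ⟨x, rfl⟩
    rw [h1]
    have h2 : Isometry j := AddMonoidHomClass.isometry_of_norm j hj
    exact h2.isClosedEmbedding.isClosed_range

theorem exists_injRes (X : Type v) [NormedAddCommGroup X] [NormedSpace ℝ X] [CompleteSpace X] :
    Nonempty (InjRes.{v, v} X) := by
  obtain ⟨Γ₀, j, hj⟩ := exists_embed X
  have hjc : IsClosed (Set.range j) :=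
    (AddMonoidHomClass.isometry_of_norm j hj).isClosedEmbedding.isClosed_range
  -- the stages: an index set with a closed subspace
  let S : Type (v + 1) := {A : Σ Γ : Type v, Submodule ℝ (Linf Γ) // IsClosed (A.2 : Set (Linf A.1))}
  have step : ∀ A : S, ∃ B : S, ∃ d : Linf A.1.1 →L[ℝ] Linf B.1.1,
      (∀ x, d x = 0 ↔ x ∈ A.1.2) ∧ ∀ y, y ∈ B.1.2 ↔ ∃ x, d x = y := by
    intro A
    obtain ⟨Γ', d, h1, h2⟩ := exists_step A.1.1 A.1.2 A.2
    exact ⟨⟨⟨Γ', LinearMap.range d.toLinearMap⟩, h2⟩, d, h1, fun y => Iff.rfl⟩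
  choose nxt d h1 h2 using step
  let A₀ : S := ⟨⟨Γ₀, LinearMap.range j.toLinearMap⟩, hjc⟩
  let A : ℕ → S := fun n => Nat.rec A₀ (fun _ B => nxt B) n
  refine ⟨⟨fun n => (A n).1.1, j, fun n => d (A n), ?_, ?_, ?_⟩⟩
  · intro x y hxy
    have : ‖j (x - y)‖ = 0 := by
      have hxy' : j x = j y := hxy
      rw [map_sub, hxy', sub_self, norm_zero]
    rw [hj] at this
    exact sub_eq_zero.1 (norm_eq_zero.1 this)
  · intro x
    exact h1 (A 0) x
  · intro n x
    exact (h1 (A (n + 1)) x).trans (h2 (A n) x)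

theorem ext2_main (hMA : MartinAxiomAleph1) (I : InjRes.{0, v} C₀(ℕ, ℝ)) (Y : Type v)
    [NormedAddCommGroup Y] [NormedSpace ℝ Y] [CompleteSpace Y] (D : Set Y) (hD : Dense D)
    (hDc : #D ≤ ℵ₁) : I.ExtSuccVanishes Y 1 := by
  have hN : ExtProp.{v, 0} (ℵ_ 2) (NStar →ᵇ ℝ) := by
    intro X _ _ _ hX Z hZ t
    obtain ⟨T, hT, -⟩ := injective_main hMA (lam := 4) (by norm_num) X hX Z hZ t
    exact ⟨T, hT⟩
  intro f hf
  let aug : C₀(ℕ, ℝ) →L[ℝ] lp (fun _ : I.Γ 0 => ℝ) ∞ := I.aug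
  let d₀ : lp (fun _ : I.Γ 0 => ℝ) ∞ →L[ℝ] lp (fun _ : I.Γ 1 => ℝ) ∞ := I.d 0
  let d₁ : lp (fun _ : I.Γ 1 => ℝ) ∞ →L[ℝ] lp (fun _ : I.Γ 2 => ℝ) ∞ := I.d 1
  let d₂ : lp (fun _ : I.Γ 2 => ℝ) ∞ →L[ℝ] lp (fun _ : I.Γ 3 => ℝ) ∞ := I.d 2
  let g : Y →L[ℝ] lp (fun _ : I.Γ 2 => ℝ) ∞ := f
  have h0 : ∀ x, d₀ x = 0 ↔ ∃ c, aug c = x := I.exact_zero
  have h1 : ∀ x, d₁ x = 0 ↔ ∃ c, d₀ c = x := I.exact_succ 0
  have h2 : ∀ x, d₂ x = 0 ↔ ∃ c, d₁ c = x := I.exact_succ 1
  have hg : ∀ y, d₂ (g y) = 0 := hf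
  let W : Submodule ℝ (lp (fun _ : I.Γ 2 => ℝ) ∞) := LinearMap.ker d₂.toLinearMap
  have hWc : IsClosed (W : Set (lp (fun _ : I.Γ 2 => ℝ) ∞)) := d₂.isClosed_ker
  have : CompleteSpace W := hWc.completeSpace_coe
  let q : lp (fun _ : I.Γ 1 => ℝ) ∞ →L[ℝ] W := d₁.codRestrict W fun x => (h2 _).2 ⟨x, rfl⟩
  have hq : Function.Surjective q := by
    rintro ⟨y, hy⟩
    obtain ⟨x, hx⟩ := (h2 y).1 hy
    exact ⟨x, Subtype.ext hx⟩
  have hker : ExtProp.{v, v} (ℵ_ 2) (LinearMap.ker q.toLinearMap) := by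
    apply extProp_cosyzygy aug d₀ hN I.aug_injective h0
    · exact q.isClosed_ker
    · intro z
      rw [← h1 z]
      constructor
      · intro h
        exact congrArg Subtype.val (show q z = 0 from h)
      · intro h
        exact (Subtype.ext h : q z = 0)
  obtain ⟨F, hF⟩ := lift_main q hq hker D hD hDc (g.codRestrict W hg)
  refine ⟨F, fun y => ?_⟩
  exact congrArg Subtype.val (hF y)

/-- `c₀(Γ)` has density character at most `ℵ₁` if `Γ` has `ℵ₁` elements -/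
theorem dense_c0 (Γ : Type v) [TopologicalSpace Γ] [DiscreteTopology Γ] (hΓ : #Γ = ℵ₁) :
    ∃ D : Set C₀(Γ, ℝ), Dense D ∧ #D ≤ ℵ₁ := by
  classical
  -- unit vectors
  let e : Γ → C₀(Γ, ℝ) := fun γ =>
    ⟨⟨fun x => if x = γ then 1 else 0, continuous_of_discreteTopology⟩, by
      show Tendsto (fun x => if x = γ then (1 : ℝ) else 0) (cocompact Γ) (𝓝 0)
      rw [cocompact_eq_cofinite]
      apply tendsto_const_nhds.congr'
      have : ∀ᶠ x in cofinite, x ∉ ({γ} : Set Γ) := (Set.finite_singleton γ).eventually_cofinite_notMem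
      filter_upwards [this] with x hx
      have : x ≠ γ := hx
      simp [this]⟩
  have he : ∀ γ x, e γ x = if x = γ then 1 else 0 := fun γ x => rfl
  let r : (Γ →₀ ℚ) → C₀(Γ, ℝ) := fun w => w.sum fun γ a => (a : ℝ) • e γ
  have hr : ∀ w x, r w x = (w x : ℝ) := by
    intro w x
    have h1 : r w x = ∑ γ ∈ w.support, (w γ : ℝ) * (if x = γ then 1 else 0) := by
      simp only [r, Finsupp.sum]
      induction w.support using Finset.induction_on with
      | empty => simp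
      | insert a s ha ih =>
        rw [Finset.sum_insert ha, Finset.sum_insert ha, ← ih]
        simp [he]
    rw [h1]
    simp only [mul_ite, mul_one, mul_zero, Finset.sum_ite_eq]
    split_ifs with h
    · rfl
    · rw [Finsupp.notMem_support_iff.1 h]
      simp
  refine ⟨Set.range r, ?_, ?_⟩
  · intro f
    rw [Metric.mem_closure_iff]
    intro ε hε
    have h1 : Tendsto f (cocompact Γ) (𝓝 0) := f.zero_at_infty'
    rw [cocompact_eq_cofinite, Metric.tendsto_nhds] at h1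
    have h2 : {x | ¬ dist (f x) 0 < ε / 2}.Finite := h1 (ε / 2) (half_pos hε)
    have hq : ∀ x, ∃ q : ℚ, |f x - q| < ε / 2 := by
      intro x
      obtain ⟨q, hq⟩ := exists_rat_btwn (show f x - ε / 2 < f x by linarith)
      exact ⟨q, by rw [abs_lt]; constructor <;> linarith [hq.1, hq.2]⟩
    choose q hq using hq
    let w : Γ →₀ ℚ := Finsupp.onFinset h2.toFinset (fun x => if dist (f x) 0 < ε / 2 then 0 else q x)
      (by
        intro x hx
        rw [Set.Finite.mem_toFinset]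
        intro h
        exact hx (if_pos h))
    refine ⟨r w, ⟨w, rfl⟩, ?_⟩
    have h3 : ∀ x, |(f - r w) x| ≤ ε / 2 := by
      intro x
      rw [ZeroAtInftyContinuousMap.sub_apply, hr]
      by_cases h : dist (f x) 0 < ε / 2
      · have : w x = 0 := if_pos h
        rw [this, Rat.cast_zero, sub_zero]
        rw [dist_zero_right] at h
        exact h.le
      · have : w x = q x := if_neg h
        rw [this]
        exact (hq x).le
    rw [dist_eq_norm]
    have h4 : ‖f - r w‖ ≤ ε / 2 := by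
      rw [← ZeroAtInftyContinuousMap.norm_toBCF_eq_norm]
      exact (BoundedContinuousFunction.norm_le (half_pos hε).le).2 h3
    linarith
  · refine Cardinal.mk_range_le.trans ?_
    have : Infinite Γ := by
      rw [Cardinal.infinite_iff, hΓ]
      exact Cardinal.aleph0_le_aleph 1
    rw [Cardinal.mk_finsupp_lift_of_infinite, hΓ]
    simp only [Cardinal.mkRat, max_le_iff, Cardinal.lift_uzero]
    exact ⟨le_rfl, by simp⟩

end Pool.Agent.W684
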