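import Pool.Agent.W684.Poset
import Pool.Agent.W684.NStar

/-!
Under Martin's axiom for `ℵ₁` dense sets, `C(ℕ*)` is `(λ, ℵ₂)`-injective for every `λ > 3`.
-/

set_option autoImplicit false

namespace Pool.Agent.W684

open Cardinal Filter Topology
open scoped BoundedContinuousFunction

universe u

/-- The countable ordinals. -/
abbrev Om : Type := (Ordinal.omega.{0} 1).ToType

theorem mk_Om : #Om = ℵ₁ := by
  simp [Om]

instance : Nonempty Om := by
  rw [← Cardinal.mk_ne_zero_iff, mk_Om]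
  exact (Cardinal.aleph_pos 1).ne'

section

variable {X : Type u} [NormedAddCommGroup X] [NormedSpace ℝ X]

omit [NormedSpace ℝ X] in
theorem exists_dense_Om (D : Set X) (hD : Dense D) (hc : #D ≤ ℵ₁) :
    ∃ e : Om → X, DenseRange e := by
  have hne : D.Nonempty := hD.nonempty
  have h1 : Cardinal.lift.{0} #D ≤ Cardinal.lift.{u} #Om := by
    rw [mk_Om]
    simpa using hc
  obtain ⟨i⟩ := Cardinal.lift_mk_le'.1 h1
  have : Nonempty D := hne.to_subtype
  let j : Om → D := Function.invFun i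
  have hj : Function.LeftInverse j i := Function.leftInverse_invFun i.injective
  refine ⟨fun a => (j a : X), ?_⟩
  have h2 : Set.range (fun a => (j a : X)) = D := by
    ext x
    constructor
    · rintro ⟨a, rfl⟩
      exact (j a).2
    · intro hx
      exact ⟨i ⟨x, hx⟩, by simp [hj ⟨x, hx⟩]⟩
  rw [DenseRange, h2]
  exact hD

theorem exists_dense_sub (e : Om → X) (he : DenseRange e) (Y : Submodule ℝ X) :
    ∃ g : Om × ℕ → Y, ∀ (y : Y) (ε : ℝ), 0 < ε → ∃ a, ‖y - g a‖ < ε := by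
  classical
  refine ⟨fun p => if h : ∃ y : Y, dist (e p.1) (y : X) < 1 / ((p.2 : ℝ) + 1) then h.choose else 0,
    ?_⟩
  intro y ε hε
  obtain ⟨n, hn⟩ := exists_nat_one_div_lt (half_pos hε)
  obtain ⟨a, ha⟩ := he.exists_dist_lt (y : X) (ε := 1 / ((n : ℝ) + 1)) (by positivity)
  refine ⟨(a, n), ?_⟩
  have h : ∃ y : Y, dist (e a) (y : X) < 1 / ((n : ℝ) + 1) := ⟨y, by rwa [dist_comm]⟩
  simp only [h, dite_true]
  have h1 := h.choose_spec
  rw [← dist_eq_norm]
  have h2 : dist (y : X) (h.choose : X) < ε := by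
    calc dist (y : X) (h.choose : X) ≤ dist (y : X) (e a) + dist (e a) (h.choose : X) :=
          dist_triangle _ _ _
      _ < ε := by linarith
  exact h2

/-- gluing a linear functional on `Y` and one on `W` -/
theorem exists_glue (Y W : Submodule ℝ X) (f : Y →ₗ[ℝ] ℝ) (g : X →ₗ[ℝ] ℝ)
    (h : ∀ y : Y, (y : X) ∈ W → f y = g y) :
    ∃ σ : X →ₗ[ℝ] ℝ, (∀ y : Y, σ y = f y) ∧ ∀ w ∈ W, σ w = g w := by
  let F : X →ₗ.[ℝ] ℝ := ⟨Y, f⟩
  let G : X →ₗ.[ℝ] ℝ := ⟨W, g.comp W.subtype⟩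
  have hFG : ∀ (x : F.domain) (y : G.domain), (x : X) = y → F x = G y := by
    intro x y hxy
    have h1 : (x : X) ∈ W := hxy ▸ y.2
    have h2 := h x h1
    show f x = g y
    rw [h2, hxy]
  obtain ⟨σ, hσ⟩ := (F.sup G hFG).toFun.exists_extend
  have hσ' : ∀ z : (F.sup G hFG).domain, σ z = (F.sup G hFG) z := fun z =>
    LinearMap.congr_fun hσ z
  refine ⟨σ, fun y => ?_, fun w hw => ?_⟩
  · have h1 : (y : X) ∈ (F.sup G hFG).domain := (LinearPMap.left_le_sup F G hFG).1 y.2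
    have h2 := hσ' ⟨y, h1⟩
    have h3 := (LinearPMap.left_le_sup F G hFG).2 (x := y) (y := ⟨(y : X), h1⟩) rfl
    rw [h2, ← h3]
    rfl
  · have h1 : w ∈ (F.sup G hFG).domain := (LinearPMap.right_le_sup F G hFG).1 hw
    have h2 := hσ' ⟨w, h1⟩
    have h3 := (LinearPMap.right_le_sup F G hFG).2 (x := ⟨w, hw⟩) (y := ⟨w, h1⟩) rfl
    rw [h2, ← h3]
    rfl

end

section

variable {X : Type u} [NormedAddCommGroup X] [NormedSpace ℝ X]
  {Y : Submodule ℝ X} (t : Y →L[ℝ] (NStar →ᵇ ℝ)) (s : (NStar →ᵇ ℝ) →ₗ[ℝ] (ℕ →ᵇ ℝ))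

/-- asymptotic norm estimate on finite dimensional subspaces -/
theorem eventually_bound (hs : ∀ f, NS.quo (s f) = f) (U : Submodule ℝ Y)
    [FiniteDimensional ℝ U] {δ : ℝ} (hδ : 0 < δ) :
    ∀ᶠ k in atTop, ∀ u : Y, u ∈ U → |s (t u) k| ≤ (‖t‖ + δ) * ‖u‖ := by
  let L : U →L[ℝ] (ℕ →ᵇ ℝ) := LinearMap.toContinuousLinearMap (s ∘ₗ t.toLinearMap ∘ₗ U.subtype)
  have hL : ∀ u : U, L u = s (t u) := fun u => rfl
  have hK : IsCompact (L '' Metric.closedBall 0 1) :=
    (isCompact_closedBall (0 : U) 1).image L.continuous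
  have hKb : ∀ v ∈ L '' Metric.closedBall 0 1, ‖NS.quo v‖ ≤ ‖t‖ := by
    rintro _ ⟨u, hu, rfl⟩
    rw [hL, hs]
    have h1 : ‖(u : Y)‖ ≤ 1 := by simpa using hu
    calc ‖t u‖ ≤ ‖t‖ * ‖(u : Y)‖ := t.le_opNorm _
      _ ≤ ‖t‖ * 1 := mul_le_mul_of_nonneg_left h1 t.opNorm_nonneg
      _ = ‖t‖ := mul_one _
  obtain ⟨S, hSK, hfin, hcov⟩ := hK.finite_cover_balls (half_pos hδ)
  have h1 : ∀ᶠ k in atTop, ∀ v ∈ S, |v k| < ‖t‖ + δ / 2 := by
    rw [hfin.eventually_all]
    intro v hv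
    apply NS.eventually_of_norm_quo_lt
    have := hKb v (hSK hv)
    linarith
  filter_upwards [h1] with k hk u hu
  have h2 : ∀ u : U, ‖u‖ ≤ 1 → |s (t u) k| ≤ ‖t‖ + δ := by
    intro u hu
    have h3 : L u ∈ L '' Metric.closedBall 0 1 := ⟨u, by simpa using hu, rfl⟩
    obtain ⟨v, hv, h4⟩ := Set.mem_iUnion₂.1 (hcov h3)
    rw [Metric.mem_ball, dist_eq_norm] at h4
    have h5 : |(L u - v) k| ≤ ‖L u - v‖ := (L u - v).norm_coe_le_norm k
    have h6 : s (t u) k = v k + (L u - v) k := by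
      rw [← hL]
      simp
    rw [h6]
    calc |v k + (L u - v) k| ≤ |v k| + |(L u - v) k| := abs_add_le _ _
      _ ≤ ‖t‖ + δ := by
        have := hk v hv
        linarith
  rcases eq_or_ne u 0 with rfl | hne
  · simp
  · have hn : 0 < ‖u‖ := norm_pos_iff.2 hne
    have h3 := h2 (‖u‖⁻¹ • ⟨u, hu⟩) (by
      rw [norm_smul, norm_inv, norm_norm]
      exact (inv_mul_cancel₀ hn.ne').le)
    have h4 : s (t ((‖u‖⁻¹ • (⟨u, hu⟩ : U) : U) : Y)) k = ‖u‖⁻¹ * s (t u) k := by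
      simp
    rw [h4, abs_mul, abs_inv, abs_norm, inv_mul_le_iff₀ hn] at h3
    linarith


variable (e : Om → X) (g : Om × ℕ → Y)

/-- the vector attached to a constraint -/
noncomputable def vec (x : ((Om × ℕ) × ℕ) × (Om →₀ ℚ)) : X :=
  (g x.1.1 : X) + x.2.sum fun b c => (c : ℝ) • e b

/-- the bound attached to a constraint (before multiplication with `λ`) -/
noncomputable def bnd (x : ((Om × ℕ) × ℕ) × (Om →₀ ℚ)) : ℝ :=
  ‖t‖ * ‖vec e g x‖ + 1 / ((x.1.2 : ℝ) + 1)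

theorem bnd_pos (x : ((Om × ℕ) × ℕ) × (Om →₀ ℚ)) : 0 < bnd t e g x := by
  have h1 : 0 ≤ ‖t‖ * ‖vec e g x‖ := mul_nonneg t.opNorm_nonneg (norm_nonneg _)
  have h2 : (0 : ℝ) < 1 / ((x.1.2 : ℝ) + 1) := by positivity
  exact add_pos_of_nonneg_of_pos h1 h2

/-- the values of the lifting -/
noncomputable def tau (k : ℕ) (j : (Om × ℕ) × ℕ) : ℝ := s (t (g j.1)) k

theorem asym (hs : ∀ f, NS.quo (s f) = f) : Asym (tau t s g) (bnd t e g) := by
  classical
  intro G _ c hc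
  -- the finite dimensional subspace
  let W : Submodule ℝ X := Submodule.span ℝ (vec e g '' G)
  have hW : FiniteDimensional ℝ W :=
    FiniteDimensional.span_of_finite ℝ (G.finite_toSet.image _)
  let U : Submodule ℝ Y := W.comap Y.subtype
  have hU : FiniteDimensional ℝ U := by
    let f : U →ₗ[ℝ] W := LinearMap.codRestrict W (Y.subtype ∘ₗ U.subtype) fun u => u.2
    refine FiniteDimensional.of_injective f ?_
    intro u v huv
    have h1 : ((u : Y) : X) = ((v : Y) : X) := congrArg (Subtype.val : W → X) huv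
    exact Subtype.ext (Subtype.ext h1)
  -- the small constant
  obtain ⟨δ, hδ, hδ'⟩ : ∃ δ : ℝ, 0 < δ ∧ ∀ x ∈ G, (‖t‖ + δ) * ‖vec e g x‖ < c * bnd t e g x := by
    have h1 : ∀ x ∈ G, ∀ᶠ δ : ℝ in 𝓝[>] 0, (‖t‖ + δ) * ‖vec e g x‖ < c * bnd t e g x := by
      intro x _
      have h2 : (‖t‖ + 0) * ‖vec e g x‖ < c * bnd t e g x := by
        have h3 := bnd_pos t e g x
        have h4 : (‖t‖ + 0) * ‖vec e g x‖ < bnd t e g x := by
          rw [bnd, add_zero]
          have : (0 : ℝ) < 1 / ((x.1.2 : ℝ) + 1) := by positivity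
          exact lt_add_of_pos_right _ this
        nlinarith
      have h5 : Tendsto (fun δ : ℝ => (‖t‖ + δ) * ‖vec e g x‖) (𝓝[>] 0)
          (𝓝 ((‖t‖ + 0) * ‖vec e g x‖)) := by
        apply Tendsto.mono_left _ nhdsWithin_le_nhds
        exact ((continuous_const.add continuous_id).mul continuous_const).tendsto _
      exact h5.eventually_lt_const h2
    have h2 : ∀ᶠ δ : ℝ in 𝓝[>] 0, ∀ x ∈ G, (‖t‖ + δ) * ‖vec e g x‖ < c * bnd t e g x :=
      (Filter.eventually_all_finset G).2 h1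
    obtain ⟨δ, h3, h4⟩ := (h2.and self_mem_nhdsWithin).exists
    exact ⟨δ, h4, h3⟩
  obtain ⟨m, hm⟩ := eventually_atTop.1 (eventually_bound t s hs U hδ)
  refine ⟨m, fun k hk => ?_⟩
  have hk' := hm k hk
  -- the functional on `Y`
  let f : Y →ₗ[ℝ] ℝ :=
    { toFun := fun y => s (t y) k
      map_add' := fun y z => by simp
      map_smul' := fun r y => by simp }
  -- extension by the Hahn-Banach theorem
  let p : Submodule ℝ X := U.map Y.subtype
  have hp : ∀ x : p, ∃ y : Y, y ∈ U ∧ (y : X) = x := by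
    rintro ⟨x, hx⟩
    obtain ⟨y, hy, h⟩ := hx
    exact ⟨y, hy, h⟩
  have hpY : ∀ x : p, (x : X) ∈ Y := by
    intro x
    obtain ⟨y, -, h⟩ := hp x
    rw [← h]
    exact y.2
  let f' : p →ₗ[ℝ] ℝ := f ∘ₗ LinearMap.codRestrict Y p.subtype hpY
  have hf' : ∀ x : p, f' x = s (t ⟨x, hpY x⟩) k := fun x => rfl
  have hC : 0 ≤ ‖t‖ + δ := add_nonneg t.opNorm_nonneg hδ.le
  have hf'b : ∀ x : p, ‖f' x‖ ≤ (‖t‖ + δ) * ‖x‖ := by
    intro x
    rw [hf']
    obtain ⟨y, hy, h⟩ := hp x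
    have h1 : (⟨x, hpY x⟩ : Y) = y := Subtype.ext h.symm
    have h2 := hk' y hy
    rw [h1]
    have h3 : ‖y‖ = ‖x‖ := by
      show ‖(y : X)‖ = ‖(x : X)‖
      rw [h]
    rw [← h3]
    exact h2
  obtain ⟨ρ, hρ1, hρ2⟩ := exists_extension_norm_eq p (f'.mkContinuous _ hf'b)
  have hρ3 : ‖ρ‖ ≤ ‖t‖ + δ := by
    rw [hρ2]
    exact LinearMap.mkContinuous_norm_le _ hC _
  obtain ⟨σ, hσ1, hσ2⟩ := exists_glue Y W f ρ.toLinearMap (by
    intro y hy
    have h1 : (y : X) ∈ p := ⟨y, hy, rfl⟩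
    have h2 := hρ1 ⟨(y : X), h1⟩
    exact h2.symm)
  refine ⟨fun b => σ (e b), fun x hx => ?_⟩
  have h1 : tau t s g k x.1 + ev (fun b => σ (e b)) x.2 = σ (vec e g x) := by
    rw [vec, map_add, hσ1]
    congr 1
    rw [ev, Finsupp.sum, Finsupp.sum, map_sum]
    exact Finset.sum_congr rfl fun b _ => by simp
  rw [h1]
  have h2 : vec e g x ∈ W := Submodule.subset_span ⟨x, hx, rfl⟩
  rw [hσ2 _ h2]
  calc |ρ (vec e g x)| ≤ ‖ρ‖ * ‖vec e g x‖ := ρ.le_opNorm _
    _ ≤ (‖t‖ + δ) * ‖vec e g x‖ := mul_le_mul_of_nonneg_right hρ3 (norm_nonneg _)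
    _ < c * bnd t e g x := hδ' x hx

end

/-- rational approximation of real combinations -/
theorem approx_fin {E : Type*} [NormedAddCommGroup E] [NormedSpace ℝ E] {B : Type*} (v : B → E)
    (f : B →₀ ℝ) : ∀ η : ℝ, 0 < η → ∃ f0 : B →₀ ℚ,
      ‖(f.sum fun b c => c • v b) - f0.sum fun b c => (c : ℝ) • v b‖ < η := by
  classical
  induction f using Finsupp.induction_linear with
  | zero =>
    intro η hη
    exact ⟨0, by simpa using hη⟩
  | add f g hf hg =>
    intro η hη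
    obtain ⟨f0, hf0⟩ := hf (η / 2) (half_pos hη)
    obtain ⟨g0, hg0⟩ := hg (η / 2) (half_pos hη)
    refine ⟨f0 + g0, ?_⟩
    rw [Finsupp.sum_add_index' (by simp) (by intros; rw [add_smul]),
      Finsupp.sum_add_index' (by simp) (by intros; rw [Rat.cast_add, add_smul])]
    rw [add_sub_add_comm]
    exact (norm_add_le _ _).trans_lt (by linarith)
  | single b c =>
    intro η hη
    have h1 : 0 < η / (‖v b‖ + 1) := by positivity
    obtain ⟨q, hq⟩ := exists_rat_btwn (show c - η / (‖v b‖ + 1) < c by linarith)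
    refine ⟨Finsupp.single b q, ?_⟩
    rw [Finsupp.sum_single_index (by simp), Finsupp.sum_single_index (by simp), ← sub_smul,
      norm_smul, Real.norm_eq_abs]
    have h2 : |c - q| ≤ η / (‖v b‖ + 1) := by
      rw [abs_le]
      constructor <;> linarith [hq.1, hq.2]
    calc |c - q| * ‖v b‖ ≤ η / (‖v b‖ + 1) * ‖v b‖ := mul_le_mul_of_nonneg_right h2 (norm_nonneg _)
      _ < η / (‖v b‖ + 1) * (‖v b‖ + 1) := by
        apply mul_lt_mul_of_pos_left _ h1
        linarith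
      _ = η := by field_simp

/-- `E` is `(λ, κ)`-injective: operators into `E` defined on a closed subspace `Y` of a Banach
space `X` of density character less than `κ` extend to `X`, the norm being multiplied by at most
`λ`. -/
def IsInjectiveFor (lam : ℝ) (κ : Cardinal.{u}) (E : Type) [NormedAddCommGroup E]
    [NormedSpace ℝ E] : Prop :=
  ∀ (X : Type u) [NormedAddCommGroup X] [NormedSpace ℝ X] [CompleteSpace X],
    (∃ D : Set X, Dense D ∧ #D < κ) →
    ∀ Y : Submodule ℝ X, IsClosed (Y : Set X) → ∀ t : Y →L[ℝ] E,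
      ∃ T : X →L[ℝ] E, (∀ y : Y, T y = t y) ∧ ‖T‖ ≤ lam * ‖t‖

theorem injective_main (hMA : MartinAxiomAleph1) {lam : ℝ} (hlam : 3 < lam) :
    IsInjectiveFor.{u} lam (ℵ_ 2) (NStar →ᵇ ℝ) := by
  classical
  intro X _ _ _ hdens Y _ t
  obtain ⟨D, hD, hDc⟩ := hdens
  have hD1 : #D ≤ ℵ₁ := by
    have h1 : (ℵ_ 2 : Cardinal.{u}) = Order.succ (ℵ_ 1) := by
      rw [Cardinal.succ_aleph, one_add_one_eq_two]
    rw [h1] at hDc
    exact Order.lt_succ_iff.1 hDc
  obtain ⟨e, he⟩ := exists_dense_Om D hD hD1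
  obtain ⟨g, hg⟩ := exists_dense_sub e he Y
  obtain ⟨s, hs'⟩ := NS.quo.exists_rightInverse_of_surjective
    (LinearMap.range_eq_top.2 NS.quo_surjective)
  have hs : ∀ f, NS.quo (s f) = f := fun f => LinearMap.congr_fun hs' f
  have hOm : #((Om × ℕ) × ℕ) ≤ ℵ₁ := by
    simp only [Cardinal.mk_prod, Cardinal.lift_id, mk_Om, Cardinal.mk_nat]
    have h1 : (ℵ₁ : Cardinal.{0}) * ℵ₀ = ℵ₁ :=
      Cardinal.mul_aleph0_eq (Cardinal.aleph0_le_aleph 1)
    rw [h1, h1]
  have hsol := generic (lam := lam) hMA hOm (mk_Om.le) (asym t s e g hs) (bnd_pos t e g) hlam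
  have hbd : ∀ j, ∃ M : ℝ, ∀ k, |tau t s g k j| ≤ M := fun j =>
    ⟨‖s (t (g j.1))‖, fun k => (s (t (g j.1))).norm_coe_le_norm k⟩
  obtain ⟨φ, hφ1, hφ2⟩ := exists_sol hbd hsol
  choose M hM using hφ1
  -- the bounded sequences attached to the points of `ω₁`
  let Φ : Om → (ℕ →ᵇ ℝ) := fun b => BoundedContinuousFunction.ofNormedAddCommGroup
    (fun k => φ k b) continuous_of_discreteTopology (M b) fun k => hM b k
  have hΦ : ∀ b k, Φ b k = φ k b := fun b k => rfl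
  let F : (Y × (Om →₀ ℝ)) →ₗ[ℝ] (ℕ →ᵇ ℝ) :=
    (s ∘ₗ t.toLinearMap).coprod (Finsupp.linearCombination ℝ Φ)
  let ι : (Y × (Om →₀ ℝ)) →ₗ[ℝ] X := Y.subtype.coprod (Finsupp.linearCombination ℝ e)
  have hι : DenseRange ι := by
    apply he.mono
    rintro _ ⟨a, rfl⟩
    exact ⟨(0, Finsupp.single a 1), by simp [ι]⟩
  have hlam0 : 0 ≤ lam := by linarith
  have hbound : ∀ w, ‖(NS.quo ∘ₗ F) w‖ ≤ lam * ‖t‖ * ‖ι w‖ := by
    rintro ⟨y, f⟩
    apply le_of_forall_pos_le_add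
    intro ε hε
    -- the approximation parameter
    obtain ⟨η, hη, hη'⟩ : ∃ η : ℝ, 0 < η ∧
        lam * (‖t‖ * (η + η) + η) + ‖t‖ * η + η < ε := by
      have h1 : Tendsto (fun η : ℝ => lam * (‖t‖ * (η + η) + η) + ‖t‖ * η + η) (𝓝[>] 0)
          (𝓝 (lam * (‖t‖ * (0 + 0) + 0) + ‖t‖ * 0 + 0)) := by
        apply Tendsto.mono_left _ nhdsWithin_le_nhds
        apply Continuous.tendsto
        fun_prop
      have h2 : lam * (‖t‖ * (0 + 0) + 0) + ‖t‖ * 0 + 0 < ε := by simpa using hε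
      obtain ⟨η, h3, h4⟩ := ((h1.eventually_lt_const h2).and self_mem_nhdsWithin).exists
      exact ⟨η, h4, h3⟩
    obtain ⟨a, ha⟩ := hg y η hη
    obtain ⟨f0, hf0⟩ := approx_fin (fun b => (e b, Φ b)) f η hη
    obtain ⟨n, hn⟩ := exists_nat_one_div_lt hη
    obtain ⟨m, hm⟩ := hφ2 ((a, n), f0)
    -- splitting of the norm of the pair
    have hpair : (f.sum fun b c => c • (e b, Φ b)) - (f0.sum fun b c => (c : ℝ) • (e b, Φ b)) =
        (Finsupp.linearCombination ℝ e f - f0.sum fun b c => (c : ℝ) • e b,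
          Finsupp.linearCombination ℝ Φ f - f0.sum fun b c => (c : ℝ) • Φ b) := by
      simp only [Finsupp.linearCombination_apply, Finsupp.sum]
      refine Prod.ext ?_ ?_
      · simp [Prod.fst_sum]
      · simp [Prod.snd_sum]
    rw [hpair, Prod.norm_mk, max_lt_iff] at hf0
    -- the bounded sequence of the approximation
    let G : ℕ →ᵇ ℝ := s (t (g a)) + f0.sum fun b c => (c : ℝ) • Φ b
    have hG : ∀ k, G k = tau t s g k (a, n) + ev (φ k) f0 := by
      intro k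
      simp [G, tau, ev, Finsupp.sum, hΦ]
    have hG1 : ‖NS.quo G‖ ≤ lam * bnd t e g ((a, n), f0) := by
      apply NS.norm_quo_le (mul_nonneg hlam0 (bnd_pos t e g _).le)
      filter_upwards [eventually_ge_atTop m] with k hk
      rw [hG]
      exact hm k hk
    have hsplit : (NS.quo ∘ₗ F) (y, f) = NS.quo G + t (y - g a) +
        NS.quo (Finsupp.linearCombination ℝ Φ f - f0.sum fun b c => (c : ℝ) • Φ b) := by
      have h1 : F (y, f) = s (t y) + Finsupp.linearCombination ℝ Φ f := by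
        simp [F]
      rw [LinearMap.comp_apply, h1, map_sub t, map_sub NS.quo]
      simp only [G, map_add, hs]
      abel
    rw [hsplit]
    have h2 : ‖t (y - g a)‖ ≤ ‖t‖ * η :=
      (t.le_opNorm _).trans (mul_le_mul_of_nonneg_left ha.le t.opNorm_nonneg)
    have h3 : ‖NS.quo (Finsupp.linearCombination ℝ Φ f - f0.sum fun b c => (c : ℝ) • Φ b)‖ ≤ η := by
      apply NS.norm_quo_le hη.le
      filter_upwards with k
      exact (BoundedContinuousFunction.norm_coe_le_norm _ k).trans hf0.2.le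
    have h4 : ‖vec e g ((a, n), f0)‖ ≤ ‖ι (y, f)‖ + (η + η) := by
      have h5 : vec e g ((a, n), f0) = ι (y, f) - ((y - g a : Y) : X) -
          (Finsupp.linearCombination ℝ e f - f0.sum fun b c => (c : ℝ) • e b) := by
        simp only [vec, ι, LinearMap.coprod_apply, Submodule.subtype_apply,
          Submodule.coe_sub]
        abel
      rw [h5]
      have h6 : ‖((y - g a : Y) : X)‖ < η := ha
      calc ‖ι (y, f) - ((y - g a : Y) : X) -
          (Finsupp.linearCombination ℝ e f - f0.sum fun b c => (c : ℝ) • e b)‖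
          ≤ ‖ι (y, f) - ((y - g a : Y) : X)‖ +
            ‖Finsupp.linearCombination ℝ e f - f0.sum fun b c => (c : ℝ) • e b‖ := norm_sub_le _ _
        _ ≤ ‖ι (y, f)‖ + ‖((y - g a : Y) : X)‖ +
            ‖Finsupp.linearCombination ℝ e f - f0.sum fun b c => (c : ℝ) • e b‖ := by
              gcongr
              exact norm_sub_le _ _
        _ ≤ ‖ι (y, f)‖ + (η + η) := by linarith [hf0.1]
    have h5 : bnd t e g ((a, n), f0) ≤ ‖t‖ * (‖ι (y, f)‖ + (η + η)) + η := by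
      have h6 : ‖t‖ * ‖vec e g ((a, n), f0)‖ ≤ ‖t‖ * (‖ι (y, f)‖ + (η + η)) :=
        mul_le_mul_of_nonneg_left h4 t.opNorm_nonneg
      have h7 : bnd t e g ((a, n), f0) = ‖t‖ * ‖vec e g ((a, n), f0)‖ + 1 / ((n : ℝ) + 1) := rfl
      rw [h7]
      linarith
    calc ‖NS.quo G + t (y - g a) +
        NS.quo (Finsupp.linearCombination ℝ Φ f - f0.sum fun b c => (c : ℝ) • Φ b)‖
        ≤ ‖NS.quo G + t (y - g a)‖ +
          ‖NS.quo (Finsupp.linearCombination ℝ Φ f - f0.sum fun b c => (c : ℝ) • Φ b)‖ :=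
          norm_add_le _ _
      _ ≤ ‖NS.quo G‖ + ‖t (y - g a)‖ +
          ‖NS.quo (Finsupp.linearCombination ℝ Φ f - f0.sum fun b c => (c : ℝ) • Φ b)‖ := by
          gcongr
          exact norm_add_le _ _
      _ ≤ lam * (‖t‖ * (‖ι (y, f)‖ + (η + η)) + η) + ‖t‖ * η + η := by
          have h6 : lam * bnd t e g ((a, n), f0) ≤
              lam * (‖t‖ * (‖ι (y, f)‖ + (η + η)) + η) := mul_le_mul_of_nonneg_left h5 hlam0
          linarith
      _ ≤ lam * ‖t‖ * ‖ι (y, f)‖ + ε := by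
          have : lam * (‖t‖ * (‖ι (y, f)‖ + (η + η)) + η) + ‖t‖ * η + η =
              lam * ‖t‖ * ‖ι (y, f)‖ + (lam * (‖t‖ * (η + η) + η) + ‖t‖ * η + η) := by ring
          linarith
  refine ⟨(NS.quo ∘ₗ F).extendOfNorm ι, fun y => ?_, ?_⟩
  · have h1 := LinearMap.extendOfNorm_eq hι ⟨_, hbound⟩ (y, 0)
    have h2 : ι (y, 0) = (y : X) := by simp [ι]
    rw [h2] at h1
    rw [h1]
    simp [F, hs]
  · exact LinearMap.opNorm_extendOfNorm_le hι (mul_nonneg hlam0 t.opNorm_nonneg) hbound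

end Pool.Agent.W684
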