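import Pool.Agent.W684.Core
import Pool.Agent.W684.MADef

/-!
The poset of finite sets of constraints, and the solution obtained from a sufficiently generic
filter.
-/

set_option autoImplicit false

namespace Pool.Agent.W684

open Finset Cardinal Filter Topology

section

variable {J B : Type} (τ : ℕ → J → ℝ) (Nm : J × (B →₀ ℚ) → ℝ) (lam : ℝ)

/-- conditions -/
def Good (p : Finset ((J × (B →₀ ℚ)) × ℕ)) : Prop :=
  ∀ k, ∃ φ : B → ℝ, ∀ a ∈ p, a.2 ≤ k → |τ k a.1.1 + ev φ a.1.2| < lam * Nm a.1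

theorem Good.mono {p q : Finset ((J × (B →₀ ℚ)) × ℕ)} (h : Good τ Nm lam q) (hpq : p ⊆ q) :
    Good τ Nm lam p := fun k => by
  obtain ⟨φ, hφ⟩ := h k
  exact ⟨φ, fun a ha => hφ a (hpq ha)⟩

/-- the poset of conditions -/
def Cond : Type := {p : Finset ((J × (B →₀ ℚ)) × ℕ) // Good τ Nm lam p}

instance : Preorder (Cond τ Nm lam) where
  le p q := q.1 ⊆ p.1
  le_refl p := Finset.Subset.refl p.1
  le_trans p q r h1 h2 := Finset.Subset.trans h2 h1

instance : Nonempty (Cond τ Nm lam) :=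
  ⟨⟨∅, fun k => ⟨fun _ => 0, by simp⟩⟩⟩

variable {τ Nm lam}

/-- a finite enumeration of a condition, with a common support -/
theorem exists_rep (p : Finset ((J × (B →₀ ℚ)) × ℕ)) :
    ∃ t : (Σ N : ℕ, Σ M : ℕ, (Fin N → ℕ) × (Fin N → Fin M → ℚ)),
      ∃ (x : Fin t.1 → J × (B →₀ ℚ)) (e : Fin t.2.1 → B), Function.Injective e ∧
        (∀ a, a ∈ p ↔ ∃ i, a = (x i, t.2.2.1 i)) ∧
        ∀ (φ : B → ℝ) (i : Fin t.1), ev φ (x i).2 = ∑ l, (t.2.2.2 i l : ℝ) * φ (e l) := by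
  classical
  let S : Finset B := p.biUnion fun a => a.1.2.support
  refine ⟨⟨p.card, S.card, fun i => (p.equivFin.symm i).1.2,
    fun i l => (p.equivFin.symm i).1.1.2 (S.equivFin.symm l)⟩,
    fun i => (p.equivFin.symm i).1.1, fun l => (S.equivFin.symm l).1, ?_, ?_, ?_⟩
  · intro l l' h
    exact S.equivFin.symm.injective (Subtype.ext h)
  · intro a
    constructor
    · intro ha
      refine ⟨p.equivFin ⟨a, ha⟩, ?_⟩
      simp
    · rintro ⟨i, rfl⟩
      exact (p.equivFin.symm i).2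
  · intro φ i
    simp only
    set f := (p.equivFin.symm i).1.1.2 with hf
    have h1 : f.support ⊆ S := by
      intro b hb
      exact Finset.mem_biUnion.2 ⟨(p.equivFin.symm i).1, (p.equivFin.symm i).2, hb⟩
    rw [ev, Finsupp.sum_of_support_subset _ h1 _ (by simp)]
    rw [← Finset.sum_coe_sort S (fun b => (f b : ℝ) * φ b)]
    exact (Equiv.sum_comp S.equivFin.symm (fun b : S => (f b : ℝ) * φ b)).symm

theorem ccc (H : Asym τ Nm) (hN : ∀ x, 0 < Nm x) (hlam : 3 < lam) :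
    IsCCC (Cond τ Nm lam) := by
  intro A hA
  by_contra hcon
  obtain ⟨t, ht⟩ := thin hcon (fun (p : Cond τ Nm lam)
    (t : (Σ N : ℕ, Σ M : ℕ, (Fin N → ℕ) × (Fin N → Fin M → ℚ))) =>
      ∃ (x : Fin t.1 → J × (B →₀ ℚ)) (e : Fin t.2.1 → B), Function.Injective e ∧
        (∀ a, a ∈ p.1 ↔ ∃ i, a = (x i, t.2.2.1 i)) ∧
        ∀ (φ : B → ℝ) (i : Fin t.1), ev φ (x i).2 = ∑ l, (t.2.2.2 i l : ℝ) * φ (e l))
    fun p _ => exists_rep p.1
  obtain ⟨N, M, n, q⟩ := t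
  simp only at ht
  set A' : Set (Cond τ Nm lam) := {p ∈ A | ∃ (x : Fin N → J × (B →₀ ℚ)) (e : Fin M → B),
    Function.Injective e ∧ (∀ a, a ∈ p.1 ↔ ∃ i, a = (x i, n i)) ∧
        ∀ (φ : B → ℝ) (i : Fin N), ev φ (x i).2 = ∑ l, (q i l : ℝ) * φ (e l)} with hA'
  have hch : ∀ p : Cond τ Nm lam, ∃ (x : Fin N → J × (B →₀ ℚ)) (e : Fin M → B), p ∈ A' →
    Function.Injective e ∧ (∀ a, a ∈ p.1 ↔ ∃ i, a = (x i, n i)) ∧
        ∀ (φ : B → ℝ) (i : Fin N), ev φ (x i).2 = ∑ l, (q i l : ℝ) * φ (e l) := by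
    intro p
    by_cases hp : p ∈ A'
    · obtain ⟨x, e, h⟩ := hp.2
      exact ⟨x, e, fun _ => h⟩
    · by_cases hJ : Nonempty (Fin N → J × (B →₀ ℚ)) ∧ Nonempty (Fin M → B)
      · exact ⟨hJ.1.some, hJ.2.some, fun h => absurd h hp⟩
      · exfalso
        apply hJ
        have : A'.Nonempty := by
          rw [Set.nonempty_iff_ne_empty]
          intro h
          rw [h] at ht
          exact ht Set.countable_empty
        obtain ⟨p', -, x, e, -⟩ := this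
        exact ⟨⟨x⟩, ⟨e⟩⟩
  choose x e hxe using hch
  obtain ⟨a, ha, b, hb, hab, h⟩ := pair_exists H hlam ht n q x e
    (fun p hp => (hxe p hp).1) (fun p hp => (hxe p hp).2.2) (fun p _ i => hN _)
    (fun p hp k => by
      obtain ⟨φ, hφ⟩ := p.2 k
      refine ⟨φ, fun i hi => ?_⟩
      exact hφ (x p i, n i) (((hxe p hp).2.1 _).2 ⟨i, rfl⟩) hi)
  classical
  refine hA a ha.1 b hb.1 hab ⟨⟨a.1 ∪ b.1, ?_⟩, Finset.subset_union_left, Finset.subset_union_right⟩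
  intro k
  obtain ⟨φ, hφ⟩ := h k
  refine ⟨φ, fun y hy hyk => ?_⟩
  rcases Finset.mem_union.1 hy with h1 | h1
  · obtain ⟨i, rfl⟩ := ((hxe a ha).2.1 y).1 h1
    exact (hφ i hyk).1
  · obtain ⟨i, rfl⟩ := ((hxe b hb).2.1 y).1 h1
    exact (hφ i hyk).2

theorem dense (H : Asym τ Nm) (hN : ∀ x, 0 < Nm x) (hlam : 1 < lam) (x : J × (B →₀ ℚ))
    (p : Cond τ Nm lam) : ∃ q ∈ {q : Cond τ Nm lam | ∃ n, (x, n) ∈ q.1}, q ≤ p := by
  classical
  obtain ⟨m, hm⟩ := H (insert x (p.1.image Prod.fst)) (fun y _ => hN y) lam hlam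
  refine ⟨⟨insert (x, m) p.1, ?_⟩, ⟨m, Finset.mem_insert_self _ _⟩, Finset.subset_insert _ _⟩
  intro k
  by_cases hk : m ≤ k
  · obtain ⟨φ, hφ⟩ := hm k hk
    refine ⟨φ, fun a ha _ => ?_⟩
    apply hφ
    rcases Finset.mem_insert.1 ha with h | h
    · rw [h]
      exact Finset.mem_insert_self _ _
    · exact Finset.mem_insert_of_mem (Finset.mem_image_of_mem _ h)
  · obtain ⟨φ, hφ⟩ := p.2 k
    refine ⟨φ, fun a ha hak => ?_⟩
    rcases Finset.mem_insert.1 ha with h | h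
    · rw [h] at hak
      exact absurd hak hk
    · exact hφ a h hak

theorem generic (hMA : MartinAxiomAleph1) (hJ : #J ≤ ℵ₁) (hB : #B ≤ ℵ₁) (H : Asym τ Nm)
    (hN : ∀ x, 0 < Nm x) (hlam : 3 < lam) :
    ∃ n : J × (B →₀ ℚ) → ℕ, ∀ (k : ℕ) (G : Finset (J × (B →₀ ℚ))), ∃ φ : B → ℝ,
      ∀ x ∈ G, n x ≤ k → |τ k x.1 + ev φ x.2| < lam * Nm x := by
  classical
  have hX : #(J × (B →₀ ℚ)) ≤ ℵ₁ := by
    rw [Cardinal.mk_prod, Cardinal.lift_id, Cardinal.lift_id]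
    have h1 : #(B →₀ ℚ) ≤ ℵ₁ := by
      rcases isEmpty_or_nonempty B with h | h
      · have : #(B →₀ ℚ) = 1 := Cardinal.eq_one_iff_unique.2 ⟨inferInstance, inferInstance⟩
        rw [this]
        exact (Cardinal.one_lt_aleph0.trans Cardinal.aleph0_lt_aleph_one).le
      · rw [Cardinal.mk_finsupp_of_infinite']
        simp only [max_le_iff]
        refine ⟨by simpa using hB, ?_⟩
        rw [Cardinal.mkRat]
        exact Cardinal.aleph0_lt_aleph_one.le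
    calc #J * #(B →₀ ℚ) ≤ ℵ₁ * ℵ₁ := mul_le_mul' hJ h1
      _ = ℵ₁ := Cardinal.mul_eq_self (Cardinal.aleph0_le_aleph 1)
  obtain ⟨G, hne, hup, hdir, hG⟩ := hMA (Cond τ Nm lam) (ccc H hN hlam)
    (Set.range fun x : J × (B →₀ ℚ) => {q : Cond τ Nm lam | ∃ n, (x, n) ∈ q.1})
    (Cardinal.mk_range_le.trans hX) (by
      rintro D ⟨x, rfl⟩ p
      exact dense H hN (by linarith) x p)
  have hG' : ∀ x : J × (B →₀ ℚ), ∃ n, ∃ p ∈ G, (x, n) ∈ p.1 := by
    intro x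
    obtain ⟨p, hp, n, hn⟩ := hG _ ⟨x, rfl⟩
    exact ⟨n, p, hp, hn⟩
  choose n p hp hn using hG'
  refine ⟨n, fun k S => ?_⟩
  have : ∃ r ∈ G, ∀ x ∈ S, (x, n x) ∈ r.1 := by
    induction S using Finset.induction_on with
    | empty =>
      rcases isEmpty_or_nonempty (J × (B →₀ ℚ)) with h | ⟨⟨x⟩⟩
      · obtain ⟨r, hr⟩ : G.Nonempty := hne
        exact ⟨r, hr, by simp⟩
      · exact ⟨p x, hp x, by simp⟩
    | insert y S _ ih =>
      obtain ⟨r, hr, h⟩ := ih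
      obtain ⟨s, hs, h1, h2⟩ := hdir r hr (p y) (hp y)
      refine ⟨s, hs, fun x hx => ?_⟩
      rcases Finset.mem_insert.1 hx with h3 | h3
      · rw [h3]
        exact h2 (hn y)
      · exact h1 (h x h3)
  obtain ⟨r, -, hr⟩ := this
  obtain ⟨φ, hφ⟩ := r.2 k
  exact ⟨φ, fun x hx hk => hφ (x, n x) (hr x hx) hk⟩

/-- From finite systems to the whole system. -/
theorem exists_sol [Nonempty J] (hτ : ∀ j, ∃ M : ℝ, ∀ k, |τ k j| ≤ M)
    (h : ∃ n : J × (B →₀ ℚ) → ℕ, ∀ (k : ℕ) (G : Finset (J × (B →₀ ℚ))), ∃ φ : B → ℝ,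
      ∀ x ∈ G, n x ≤ k → |τ k x.1 + ev φ x.2| < lam * Nm x) :
    ∃ φ : ℕ → B → ℝ, (∀ b, ∃ M : ℝ, ∀ k, |φ k b| ≤ M) ∧
      ∀ x, ∃ m : ℕ, ∀ k, m ≤ k → |τ k x.1 + ev (φ k) x.2| ≤ lam * Nm x := by
  classical
  obtain ⟨n, hn⟩ := h
  choose φ hφ using hn
  obtain ⟨j0⟩ := ‹Nonempty J›
  let eb : B → J × (B →₀ ℚ) := fun b => (j0, Finsupp.single b 1)
  have hev : ∀ (ψ : B → ℝ) (b : B), ev ψ (eb b).2 = ψ b := by
    intro ψ b
    simp [ev, eb]
  obtain ⟨M0, hM0⟩ := hτ j0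
  let U : Ultrafilter (Finset (J × (B →₀ ℚ))) := Ultrafilter.of atTop
  have hU : (U : Filter (Finset (J × (B →₀ ℚ)))) ≤ atTop := Ultrafilter.of_le _
  have hmem : ∀ x, ∀ᶠ G in (U : Filter (Finset (J × (B →₀ ℚ)))), x ∈ G := by
    intro x
    have : ∀ᶠ G in (atTop : Filter (Finset (J × (B →₀ ℚ)))), {x} ≤ G := eventually_ge_atTop _
    exact Filter.Eventually.mono (hU this) fun G hG => hG (Finset.mem_singleton_self x)
  let Mb : B → ℝ := fun b => lam * Nm (eb b) + M0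
  have hbd : ∀ (k : ℕ) (b : B), n (eb b) ≤ k → ∃ l : ℝ, |l| ≤ Mb b ∧
      Tendsto (fun G => φ k G b) U (𝓝 l) := by
    intro k b hb
    have h1 : ∀ᶠ G in (U : Filter (Finset (J × (B →₀ ℚ)))), φ k G b ∈ Set.Icc (-Mb b) (Mb b) := by
      filter_upwards [hmem (eb b)] with G hG
      have h2 := hφ k G (eb b) hG hb
      rw [hev] at h2
      have h3 := hM0 k
      have h4 : |φ k G b| ≤ |τ k (eb b).1 + φ k G b| + |τ k j0| := by
        have : φ k G b = (τ k (eb b).1 + φ k G b) - τ k j0 := by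
          simp [eb]
        conv_lhs => rw [this]
        exact abs_sub _ _
      have h5 : |φ k G b| ≤ Mb b := by
        simp only [Mb]
        linarith
      exact ⟨neg_le_of_abs_le h5, le_of_abs_le h5⟩
    have h6 : (U.map fun G => φ k G b : Filter ℝ) ≤ 𝓟 (Set.Icc (-Mb b) (Mb b)) := by
      rw [le_principal_iff]
      exact h1
    obtain ⟨l, hl, h7⟩ := isCompact_Icc.ultrafilter_le_nhds (U.map fun G => φ k G b) h6
    exact ⟨l, abs_le.2 hl, h7⟩
  let ψ : ℕ → B → ℝ := fun k b => if h : n (eb b) ≤ k then (hbd k b h).choose else 0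
  refine ⟨ψ, ?_, ?_⟩
  · intro b
    refine ⟨max (Mb b) 0, fun k => ?_⟩
    by_cases h : n (eb b) ≤ k
    · simp only [ψ, h, dite_true]
      exact (hbd k b h).choose_spec.1.trans (le_max_left _ _)
    · simp only [ψ, h, dite_false, abs_zero]
      exact le_max_right _ _
  · intro x
    refine ⟨max (n x) (x.2.support.sup fun b => n (eb b)), fun k hk => ?_⟩
    have h1 : n x ≤ k := (le_max_left _ _).trans hk
    have h2 : ∀ b ∈ x.2.support, n (eb b) ≤ k := fun b hb =>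
      (Finset.le_sup (f := fun b => n (eb b)) hb).trans ((le_max_right _ _).trans hk)
    have h3 : ∀ b ∈ x.2.support, Tendsto (fun G => φ k G b) U (𝓝 (ψ k b)) := by
      intro b hb
      simp only [ψ, h2 b hb, dite_true]
      exact (hbd k b (h2 b hb)).choose_spec.2
    have h4 : Tendsto (fun G => |τ k x.1 + ev (φ k G) x.2|) U
        (𝓝 |τ k x.1 + ev (ψ k) x.2|) := by
      apply Tendsto.abs
      apply Tendsto.const_add
      simp only [ev, Finsupp.sum]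
      exact tendsto_finsetSum _ fun b hb => (h3 b hb).const_mul _
    refine le_of_tendsto h4 ?_
    filter_upwards [hmem x] with G hG
    exact (hφ k G x hG h1).le

end

end Pool.Agent.W684
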